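import Pool.Agent.Lib.MP_af714c_lc.Defs

/-!
# Basic lemmas for MP_af714c_lc: the partition relation in terms of triangle-free graphs on `J × J`
-/

set_option autoImplicit false

namespace Pool.Agent.Lib.MP_af714c_lc

universe u v

open Cardinal Ordinal Set

/-- The well-ordered type of order type `c.ord`. -/
abbrev KK (c : Cardinal.{u}) : Type u := c.ord.ToType

/-- A triangle-free graph, given by its adjacency relation. -/
def TriFree {P : Type v} (r : P → P → Prop) : Prop :=
  (∀ x y, r x y → r y x) ∧ ∀ x y z, r x y → r y z → r x z → False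

theorem TriFree.irrefl {P : Type v} {r : P → P → Prop} (h : TriFree r) (x : P) : ¬ r x x :=
  fun hx => h.2 x x x hx hx hx

/-- `Y ⊆ J × J` has `#J` many rows of size `#J`. -/
def Big {J : Type u} (Y : Set (J × J)) : Prop :=
  #{i : J | #{j : J | (i, j) ∈ Y} = #J} = #J

/-- Every triangle-free graph on `J × J` has an independent set which is big. -/
def Pos (J : Type u) : Prop :=
  ∀ r : J × J → J × J → Prop, TriFree r → ∃ Y : Set (J × J), (∀ x ∈ Y, ∀ y ∈ Y, ¬ r x y) ∧ Big Y

theorem Big.mono {J : Type u} {Y Y' : Set (J × J)} (h : Y ⊆ Y') (hY : Big Y) : Big Y' := by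
  unfold Big at *
  refine le_antisymm (mk_set_le _) (hY.symm.le.trans (mk_le_mk_of_subset ?_))
  intro i hi
  simp only [mem_ofPred_eq] at *
  exact le_antisymm (mk_set_le _) (hi.symm.le.trans (mk_le_mk_of_subset fun j hj => h hj))

theorem mk_KK (c : Cardinal.{u}) : #(KK c) = c := mk_ord_toType c

theorem mk_Iio_lt {c : Cardinal.{u}} (x : KK c) : #(Iio x) < c := by
  have := Cardinal.mk_Iio_lt x (by rw [mk_KK, type_toType])
  rwa [mk_KK] at this

theorem mk_Iic_lt {c : Cardinal.{u}} (hc : ℵ₀ ≤ c) (x : KK c) : #(Iic x) < c := by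
  have h : Iic x = insert x (Iio x) := by
    ext y; simp [le_iff_eq_or_lt]
  rw [h]
  refine (mk_insert_le).trans_lt ?_
  exact add_lt_of_lt hc (mk_Iio_lt x) (one_lt_aleph0.trans_le hc)

theorem noMax {c : Cardinal.{u}} (hc : ℵ₀ ≤ c) : NoMaxOrder (KK c) := noMaxOrder hc

/-- a small set in a regular well-order is strictly bounded -/
theorem exists_bound {c : Cardinal.{u}} {S : Set (KK c)} (hS : #S < c.ord.cof) :
    ∃ x, ∀ y ∈ S, y < x := by
  have h : ¬ IsCofinal S := by
    intro h
    have := Order.cof_le h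
    rw [cof_toType] at this
    exact absurd hS (not_lt.2 this)
  exact not_isCofinal_iff.1 h

theorem exists_bound_reg {c : Cardinal.{u}} (hc : c.IsRegular) {S : Set (KK c)} (hS : #S < c) :
    ∃ x, ∀ y ∈ S, y < x :=
  exists_bound (by rwa [hc.cof_ord])

theorem mk_lt_of_bdd {c : Cardinal.{u}} (hc : ℵ₀ ≤ c) {S : Set (KK c)} {x : KK c}
    (h : ∀ y ∈ S, y ≤ x) : #S < c :=
  (mk_le_mk_of_subset h).trans_lt (mk_Iic_lt hc x)

/-- sets of full size are cofinal -/
theorem exists_gt_of_mk {c : Cardinal.{u}} (hc : ℵ₀ ≤ c) {S : Set (KK c)} (hS : #S = c) (x : KK c) :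
    ∃ y ∈ S, x < y := by
  by_contra! h
  exact (mk_lt_of_bdd hc h).ne hS

/-- cofinal sets have full size, for regular `c` -/
theorem mk_of_cofinal {c : Cardinal.{u}} (hc : c.IsRegular) {S : Set (KK c)}
    (hS : ∀ x, ∃ y ∈ S, x ≤ y) : #S = c := by
  apply le_antisymm ((mk_set_le S).trans (mk_KK c).le)
  by_contra! h
  obtain ⟨x, hx⟩ := exists_bound_reg hc h
  obtain ⟨y, hy, hxy⟩ := hS x
  exact absurd (hx y hy) (not_lt.2 hxy)

theorem type_of_mk {c : Cardinal.{u}} {S : Set (KK c)} (hS : #S = c) : typeLT S = c.ord := by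
  apply le_antisymm
  · have := type_set_le S
    rwa [type_toType] at this
  · rw [ord_le, card_type, hS]

theorem type_lex (c : Cardinal.{u}) : typeLT (Lex (KK c × KK c)) = c.ord * c.ord := by
  have := type_prod_lex (α := KK c) (β := KK c) (· < ·) (· < ·)
  rw [type_toType] at this
  exact this

theorem type_of_big {c : Cardinal.{u}} {X : Set (Lex (KK c × KK c))}
    (hX : Big {p : KK c × KK c | toLex p ∈ X}) : typeLT X = c.ord * c.ord := by
  apply le_antisymm
  · have := type_set_le X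
    rwa [type_lex] at this
  · rw [← type_lex, type_le_iff']
    unfold Big at hX
    rw [mk_KK] at hX
    set R : Set (KK c) := {i | #{j | (i, j) ∈ {p : KK c × KK c | toLex p ∈ X}} = c} with hR
    have hR1 : typeLT R = c.ord := type_of_mk hX
    have hR2 : Nonempty (KK c ≃o R) := by
      have : typeLT (KK c) = typeLT R := by rw [hR1, type_toType]
      obtain ⟨e⟩ := type_eq.1 this
      exact ⟨OrderIso.ofRelIsoLT e⟩
    obtain ⟨e⟩ := hR2
    have hrow : ∀ i : KK c, Nonempty (KK c ≃o {j : KK c | toLex ((e i : KK c), j) ∈ X}) := by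
      intro i
      have h1 : typeLT {j : KK c | toLex ((e i : KK c), j) ∈ X} = c.ord := type_of_mk (e i).2
      have : typeLT (KK c) = typeLT {j : KK c | toLex ((e i : KK c), j) ∈ X} := by
        rw [h1, type_toType]
      obtain ⟨e⟩ := type_eq.1 this
      exact ⟨OrderIso.ofRelIsoLT e⟩
    let g := fun i => (hrow i).some
    let F : Lex (KK c × KK c) → X := fun p =>
      ⟨toLex ((e (ofLex p).1 : KK c), (g (ofLex p).1 (ofLex p).2 : KK c)),
        (g (ofLex p).1 (ofLex p).2).2⟩
    refine ⟨RelEmbedding.ofMonotone F ?_⟩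
    intro p q hpq
    rw [Prod.Lex.lt_iff] at hpq
    change (F p : Lex (KK c × KK c)) < (F q : Lex (KK c × KK c))
    rw [Prod.Lex.lt_iff]
    rcases hpq with h | ⟨h, h'⟩
    · left
      exact e.strictMono h
    · right
      refine ⟨by change ((e (ofLex p).1 : R) : KK c) = (e (ofLex q).1 : R); rw [h], ?_⟩
      change ((g (ofLex p).1 (ofLex p).2 : _) : KK c) < (g (ofLex q).1 (ofLex q).2 : _)
      rw [← h]
      exact (g _).strictMono h'

theorem exists_iso_lex (c : Cardinal.{u}) :
    Nonempty ((c.ord * c.ord).ToType ≃o Lex (KK c × KK c)) := by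
  have : typeLT (c.ord * c.ord).ToType = typeLT (Lex (KK c × KK c)) := by
    rw [type_lex, type_toType]
  obtain ⟨e⟩ := type_eq.1 this
  exact ⟨OrderIso.ofRelIsoLT e⟩

/-- The graph of a colouring. -/
def colGraph {P : Type u} [LinearOrder P] (f : P → P → Bool) (x y : P) : Prop :=
  (x < y ∧ f x y = true) ∨ (y < x ∧ f y x = true)

theorem colGraph_symm {P : Type u} [LinearOrder P] (f : P → P → Bool) (x y : P)
    (h : colGraph f x y) : colGraph f y x := Or.symm h

theorem colGraph_triangle {P : Type u} [LinearOrder P] (f : P → P → Bool) (x y z : P)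
    (h1 : colGraph f x y) (h2 : colGraph f y z) (h3 : colGraph f x z) :
    ∃ a b c : P, a < b ∧ b < c ∧ f a b = true ∧ f b c = true ∧ f a c = true := by
  rcases h1 with ⟨h1, h1'⟩ | ⟨h1, h1'⟩ <;> rcases h2 with ⟨h2, h2'⟩ | ⟨h2, h2'⟩ <;>
    rcases h3 with ⟨h3, h3'⟩ | ⟨h3, h3'⟩
  · exact ⟨x, y, z, h1, h2, h1', h2', h3'⟩
  · exact absurd (h1.trans h2) (not_lt.2 h3.le)
  · exact ⟨x, z, y, h3, h2, h3', h2', h1'⟩
  · exact ⟨z, x, y, h3, h1, h3', h1', h2'⟩
  · exact ⟨y, x, z, h1, h3, h1', h3', h2'⟩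
  · exact ⟨y, z, x, h2, h3, h2', h3', h1'⟩
  · exact absurd (h2.trans h1) (not_lt.2 h3.le)
  · exact ⟨z, y, x, h2, h1, h2', h1', h3'⟩

theorem arrow_of_pos {c : Cardinal.{u}} (h : Pos (KK c)) :
    Arrow (c.ord * c.ord) (c.ord * c.ord) 3 := by
  intro f
  obtain ⟨e⟩ := exists_iso_lex c
  by_cases htri : ∃ x y z : (c.ord * c.ord).ToType, x < y ∧ y < z ∧ f x y = true ∧
      f y z = true ∧ f x z = true
  · right
    obtain ⟨x, y, z, hxy, hyz, h1, h2, h3⟩ := htri
    refine ⟨{x, y, z}, ?_, ?_⟩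
    · have hfin : Finite ({x, y, z} : Set (c.ord * c.ord).ToType) := by
        exact Set.toFinite _
      have := Fintype.ofFinite ({x, y, z} : Set (c.ord * c.ord).ToType)
      rw [type_fintype, ← Nat.card_eq_fintype_card, Nat.card_coe_set_eq,
        Set.ncard_insert_of_notMem, Set.ncard_pair hyz.ne]
      · rfl
      · simp only [mem_insert_iff, mem_singleton_iff, not_or]
        exact ⟨hxy.ne, (hxy.trans hyz).ne⟩
    · have hxz := hxy.trans hyz
      intro a ha b hb hab
      simp only [mem_insert_iff, mem_singleton_iff] at ha hb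
      rcases ha with rfl | rfl | rfl <;> rcases hb with rfl | rfl | rfl
      · exact absurd hab (lt_irrefl _)
      · exact h1
      · exact h3
      · exact absurd hab (not_lt.2 hxy.le)
      · exact absurd hab (lt_irrefl _)
      · exact h2
      · exact absurd hab (not_lt.2 hxz.le)
      · exact absurd hab (not_lt.2 hyz.le)
      · exact absurd hab (lt_irrefl _)
  · left
    let r : KK c × KK c → KK c × KK c → Prop :=
      fun x y => colGraph f (e.symm (toLex x)) (e.symm (toLex y))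
    have hr : TriFree r := by
      refine ⟨fun x y hxy => colGraph_symm _ _ _ hxy, fun x y z h1 h2 h3 => htri ?_⟩
      exact colGraph_triangle f _ _ _ h1 h2 h3
    obtain ⟨Y, hY, hbig⟩ := h r hr
    let X : Set (Lex (KK c × KK c)) := {p | ofLex p ∈ Y}
    have hX : typeLT X = c.ord * c.ord := type_of_big hbig
    refine ⟨e ⁻¹' X, ?_, ?_⟩
    · refine Eq.trans ?_ hX
      refine OrderIso.ordinalType_congr ?_
      exact { toFun := fun x => ⟨e x, x.2⟩
              invFun := fun y => ⟨e.symm y, by simp [y.2]⟩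
              left_inv := fun x => by simp
              right_inv := fun x => by simp
              map_rel_iff' := by
                intro a b
                exact e.le_iff_le }
    · intro x hx y hy hxy
      by_contra hne
      have := hY _ hx _ hy
      apply this
      left
      change e.symm (e x) < e.symm (e y) ∧ _
      rw [e.symm_apply_apply, e.symm_apply_apply]
      refine ⟨hxy, ?_⟩
      change f (e.symm (e x)) (e.symm (e y)) = true
      rw [e.symm_apply_apply, e.symm_apply_apply]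
      simpa using hne

/-- a strictly increasing cofinal map from the cofinality -/
theorem exists_cofinal_map (c : Cardinal.{u}) :
    ∃ g : KK c.ord.cof → KK c, StrictMono g ∧ ∀ x, ∃ j, x ≤ g j := by
  obtain ⟨s, hs, hs'⟩ := exists_ord_cof_eq (KK c)
  rw [cof_toType] at hs'
  have : typeLT (KK c.ord.cof) = typeLT s := by rw [hs', type_toType]
  obtain ⟨e⟩ := type_eq.1 this
  let e' := OrderIso.ofRelIsoLT e
  refine ⟨fun j => (e' j : KK c), fun a b h => e'.strictMono h, fun x => ?_⟩
  obtain ⟨y, hy, hxy⟩ := hs x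
  refine ⟨e'.symm ⟨y, hy⟩, ?_⟩
  simpa using hxy

/-- the block index function -/
theorem exists_index (c : Cardinal.{u}) :
    ∃ (g : KK c.ord.cof → KK c) (ι : KK c → KK c.ord.cof), StrictMono g ∧
      (∀ x, x ≤ g (ι x)) ∧ ∀ x j, x ≤ g j → ι x ≤ j := by
  obtain ⟨g, hg, hg'⟩ := exists_cofinal_map c
  have : ∀ x, ∃ j, x ≤ g j ∧ ∀ j', x ≤ g j' → j ≤ j' := by
    intro x
    obtain ⟨j, hj, hmin⟩ := (wellFounded_lt (α := KK c.ord.cof)).has_min {j | x ≤ g j} (hg' x)
    exact ⟨j, hj, fun j' hj' => not_lt.1 (hmin j' hj')⟩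
  choose ι h1 h2 using this
  exact ⟨g, ι, hg, h1, h2⟩

theorem isRegular_cof' {c : Cardinal.{u}} (hc : ℵ₀ ≤ c) : c.ord.cof.IsRegular :=
  isRegular_cof (isSuccLimit_ord hc)

theorem big_image {c : Cardinal.{u}} (hc : ℵ₀ ≤ c) (g : KK c.ord.cof → KK c)
    (ι : KK c → KK c.ord.cof) (hg : StrictMono g) (h1 : ∀ x, x ≤ g (ι x))
    (h2 : ∀ x j, x ≤ g j → ι x ≤ j) (X : Set (Lex (KK c × KK c)))
    (hX : typeLT X = c.ord * c.ord) :
    Big {q : KK c.ord.cof × KK c.ord.cof | ∃ p ∈ X, (ι (ofLex p).1, ι (ofLex p).2) = q} := by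
  have hreg := isRegular_cof' hc
  have := noMax hc
  by_contra hbig
  unfold Big at hbig
  rw [mk_KK] at hbig
  have : ∃ i0, ∀ i, i0 ≤ i → ∃ b : KK c.ord.cof, ∀ p ∈ X, ι (ofLex p).1 = i →
      ι (ofLex p).2 < b := by
    by_contra! hcon
    apply hbig
    apply mk_of_cofinal hreg
    intro i0
    obtain ⟨i, hi, hi'⟩ := hcon i0
    refine ⟨i, ?_, hi⟩
    apply mk_of_cofinal hreg
    intro x
    obtain ⟨p, hp, hpi, hpx⟩ := hi' x
    exact ⟨ι (ofLex p).2, ⟨p, hp, by rw [hpi]⟩, hpx⟩
  obtain ⟨i0, hi0⟩ := this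
  have : typeLT (Lex (KK c × KK c)) = typeLT X := by rw [hX, type_lex]
  obtain ⟨e⟩ := type_eq.1 this
  let φ := OrderIso.ofRelIsoLT e
  let F : Lex (KK c × KK c) → Lex (KK c × KK c) := fun p => (φ p : Lex (KK c × KK c))
  have hF : StrictMono F := fun a b hab => φ.strictMono hab
  have hFX : ∀ p, F p ∈ X := fun p => (φ p).2
  obtain ⟨a1, ha1⟩ := exists_gt (g i0)
  set a2 := (ofLex (F (toLex (a1, a1)))).1 with ha2
  have hx1 : ∀ b, g i0 ≤ (ofLex (F (toLex (g i0, b)))).1 := by
    intro b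
    have := hF.le_apply (x := toLex (g i0, b))
    rw [Prod.Lex.le_iff] at this
    rcases this with h | ⟨h, -⟩
    · exact h.le
    · exact h.le
  have hx2 : ∀ b, (ofLex (F (toLex (g i0, b)))).1 ≤ a2 := by
    intro b
    have : F (toLex (g i0, b)) < F (toLex (a1, a1)) := by
      apply hF
      rw [Prod.Lex.lt_iff]
      left; exact ha1
    rw [Prod.Lex.lt_iff] at this
    rcases this with h | ⟨h, -⟩
    · exact h.le
    · exact h.le
  have hx3 : ∀ b, i0 ≤ ι (ofLex (F (toLex (g i0, b)))).1 := by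
    intro b
    by_contra! h
    have h3 := hg h
    exact absurd ((hx1 b).trans (h1 _)) (not_le.2 h3)
  have hx4 : ∀ b, ι (ofLex (F (toLex (g i0, b)))).1 ≤ ι a2 := fun b =>
    h2 _ _ ((hx2 b).trans (h1 _))
  have : ∃ h : KK c.ord.cof → KK c.ord.cof, ∀ i, i0 ≤ i → ∀ p ∈ X, ι (ofLex p).1 = i →
      ι (ofLex p).2 < h i := by
    have : ∀ i, ∃ b : KK c.ord.cof, i0 ≤ i → ∀ p ∈ X, ι (ofLex p).1 = i →
        ι (ofLex p).2 < b := by
      intro i
      by_cases hi : i0 ≤ i
      · obtain ⟨b, hb⟩ := hi0 i hi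
        exact ⟨b, fun _ => hb⟩
      · exact ⟨i, fun h => absurd h hi⟩
    choose h hh using this
    exact ⟨h, hh⟩
  obtain ⟨h, hh⟩ := this
  obtain ⟨j1, hj1⟩ : ∃ j1, ∀ y ∈ h '' Iic (ι a2), y < j1 := by
    apply exists_bound_reg hreg
    exact mk_image_le.trans_lt (mk_Iic_lt hreg.aleph0_le _)
  have hy : ∀ b, (ofLex (F (toLex (g i0, b)))).2 ≤ g j1 := by
    intro b
    have h3 := hh _ (hx3 b) _ (hFX _) rfl
    have h4 := hj1 _ (mem_image_of_mem h (hx4 b))
    exact (h1 _).trans (hg (h3.trans h4)).le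
  have hinj : Function.Injective (fun b : KK c =>
      ((⟨(ofLex (F (toLex (g i0, b)))).1, hx2 b⟩, ⟨(ofLex (F (toLex (g i0, b)))).2, hy b⟩) :
        Iic a2 × Iic (g j1))) := by
    intro b b' hbb
    have hbb1 := congrArg (fun q => ((q.1 : Iic a2) : KK c)) hbb
    have hbb2 := congrArg (fun q => ((q.2 : Iic (g j1)) : KK c)) hbb
    have : ofLex (F (toLex (g i0, b))) = ofLex (F (toLex (g i0, b'))) := Prod.ext hbb1 hbb2
    have h5 := hF.injective (ofLex_inj.1 this)
    have h6 := toLex_inj.1 h5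
    exact (Prod.mk.injEq _ _ _ _ ▸ h6 : _ ∧ _).2
  have hle := mk_le_of_injective hinj
  rw [mk_KK, mk_prod, Cardinal.lift_id, Cardinal.lift_id] at hle
  exact absurd hle (not_le.2 (mul_lt_of_lt hc (mk_Iic_lt hc _) (mk_Iic_lt hc _)))

theorem pos_of_arrow {c : Cardinal.{u}} (hc : ℵ₀ ≤ c)
    (h : Arrow (c.ord * c.ord) (c.ord * c.ord) 3) : Pos (KK c.ord.cof) := by
  intro r hr
  obtain ⟨g, ι, hg, h1, h2⟩ := exists_index c
  obtain ⟨e⟩ := exists_iso_lex c
  let pr : (c.ord * c.ord).ToType → KK c.ord.cof × KK c.ord.cof := fun x =>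
    (ι (ofLex (e x)).1, ι (ofLex (e x)).2)
  classical
  rcases h (fun x y => decide (r (pr x) (pr y))) with ⟨H, hH, hH'⟩ | ⟨H, hH, hH'⟩
  · let X : Set (Lex (KK c × KK c)) := e '' H
    have hX : typeLT X = c.ord * c.ord := by
      refine Eq.trans ?_ hH
      refine (OrderIso.ordinalType_congr ?_).symm
      exact (e.strictMono.strictMonoOn H).orderIso
    refine ⟨_, ?_, big_image hc g ι hg h1 h2 X hX⟩
    rintro x ⟨p, ⟨a, ha, rfl⟩, rfl⟩ y ⟨q, ⟨b, hb, rfl⟩, rfl⟩ hxy
    rcases lt_trichotomy a b with hab | hab | hab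
    · have := hH' a ha b hb hab
      simp only [decide_eq_false_iff_not] at this
      exact this hxy
    · subst hab
      exact hr.irrefl _ hxy
    · have := hH' b hb a ha hab
      simp only [decide_eq_false_iff_not] at this
      exact this (hr.1 _ _ hxy)
  · exfalso
    have hcard : #H = 3 := by
      have := congrArg Ordinal.card hH
      rw [card_type] at this
      rw [this]
      exact card_ofNat 3
    have h3 : Nat.card H = 3 := by
      rw [Nat.card, hcard]
      simp
    have hfin : Finite H := Nat.finite_of_card_ne_zero (by rw [h3]; norm_num)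
    have hfin' : H.Finite := hfin
    rw [Nat.card_coe_set_eq] at h3
    obtain ⟨x, y, z, hxy, hxz, hyz, rfl⟩ := Set.ncard_eq_three.1 h3
    have key : ∀ a ∈ ({x, y, z} : Set (c.ord * c.ord).ToType), ∀ b ∈ ({x, y, z} : Set _),
        a ≠ b → r (pr a) (pr b) := by
      intro a ha b hb hab
      rcases lt_or_gt_of_ne hab with h | h
      · simpa using hH' a ha b hb h
      · exact hr.1 _ _ (by simpa using hH' b hb a ha h)
    exact hr.2 _ _ _ (key x (by simp) y (by simp) hxy) (key y (by simp) z (by simp) hyz)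
      (key x (by simp) z (by simp) hxz)

end Pool.Agent.Lib.MP_af714c_lc
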