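import Pool.Agent.Lib.MP_af714c_lc.ER

/-!
# MP_af714c_lc: canonization
-/

set_option autoImplicit false

namespace Pool.Agent.Lib.MP_af714c_lc

universe u v

open Cardinal Ordinal Set

/-- two exponentials -/
noncomputable def TT (N : Cardinal.{u}) : Cardinal.{u} := 2 ^ (2 ^ N : Cardinal.{u})

theorem le_TT (N : Cardinal.{u}) : N ≤ TT N := (cantor N).le.trans (cantor _).le

theorem le_TT_iter (N : Cardinal.{u}) (s : ℕ) : N ≤ (TT^[s]) N := by
  induction s with
  | zero => exact le_rfl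
  | succ s ih =>
    rw [Function.iterate_succ_apply']
    exact ih.trans (le_TT _)

/-- an increasing pair from the block `p` -/
def Fit {J K : Type u} [LinearOrder K] (C : J → Set K) (p : J) (z : K × K) : Prop :=
  z.1 ∈ C p ∧ z.2 ∈ C p ∧ z.1 < z.2

theorem Fit.mono {J K : Type u} [LinearOrder K] {C C' : J → Set K} (h : ∀ p, C p ⊆ C' p) {p : J}
    {z : K × K} (hz : Fit C p z) : Fit C' p z := ⟨h p hz.1, h p hz.2.1, hz.2.2⟩

theorem exists_pair {K : Type u} [LinearOrder K] {H : Set K} (h : ℵ₀ ≤ #H) :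
    ∃ x ∈ H, ∃ y ∈ H, x < y := by
  have : (2 : Cardinal.{u}) ≤ #H := (natCast_lt_aleph0 (n := 2)).le.trans h
  rw [two_le_iff] at this
  obtain ⟨x, y, hxy⟩ := this
  rcases lt_or_gt_of_ne (fun h => hxy (Subtype.ext h)) with h | h
  · exact ⟨x, x.2, y, y.2, h⟩
  · exact ⟨y, y.2, x, x.2, h⟩

theorem canon {κ c : Cardinal.{u}} (hκ : ℵ₀ ≤ κ) (w : KK κ → KK c) (N : KK κ → Cardinal.{u})
    (hN1 : ∀ p, κ ≤ N p) (hN2 : ∀ p, #(Iio (w p)) ≤ N p) (s : ℕ) :
    ∀ (W : Type u) (_ : #W ≤ 2 ^ κ) (G : List (KK c × KK c) → W) (C : KK κ → Set (KK c))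
      (_ : ∀ q p, q < p → ∀ x ∈ C q, x < w p) (_ : ∀ p, (TT^[s]) (N p) < #(C p)),
      ∃ C' : KK κ → Set (KK c), (∀ p, C' p ⊆ C p) ∧ (∀ p, N p < #(C' p)) ∧
        ∀ ps : List (KK κ), ps.length ≤ s → ps.Pairwise (· > ·) → ∀ L L',
          List.Forall₂ (Fit C') ps L → List.Forall₂ (Fit C') ps L' → G L = G L' := by
  induction s with
  | zero =>
    intro W _ G C _ hbig
    refine ⟨C, fun _ => Subset.rfl, hbig, ?_⟩
    intro ps hps _ L L' hL hL'
    have : ps = [] := List.length_eq_zero_iff.1 (Nat.le_zero.1 hps)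
    subst this
    rw [List.forall₂_nil_left_iff] at hL hL'
    rw [hL, hL']
  | succ s ih =>
    intro W hW G C hC hbig
    have hN0 : ∀ p, ℵ₀ ≤ N p := fun p => hκ.trans (hN1 p)
    -- homogeneous sets in every block
    have hH : ∀ p, ∃ H : Set (KK c), H ⊆ C p ∧ (TT^[s]) (N p) < #H ∧
        ∀ x ∈ H, ∀ y ∈ H, x < y → ∀ x' ∈ H, ∀ y' ∈ H, x' < y' →
          ∀ L : List (KK c × KK c), (∀ z ∈ L, z.1 < w p ∧ z.2 < w p) →
            G ((x, y) :: L) = G ((x', y') :: L) := by
      intro p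
      set μ : Cardinal.{u} := 2 ^ ((TT^[s]) (N p)) with hμ
      have hμ0 : ℵ₀ ≤ μ := ((hN0 p).trans (le_TT_iter _ s)).trans (cantor _).le
      let f : C p → C p → (List (Iio (w p) × Iio (w p)) → W) := fun x y L =>
        G ((x.1, y.1) :: L.map (fun z => (z.1.1, z.2.1)))
      have hcol : #(List (Iio (w p) × Iio (w p)) → W) ≤ μ := by
        rw [mk_arrow, Cardinal.lift_id, Cardinal.lift_id]
        have h1 : #(List (Iio (w p) × Iio (w p))) ≤ N p := by
          refine (mk_list_le_max _).trans (max_le (hN0 p) ?_)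
          rw [mk_prod, Cardinal.lift_id]
          exact (mul_le_mul' (hN2 p) (hN2 p)).trans (mul_eq_self (hN0 p)).le
        calc #W ^ #(List (Iio (w p) × Iio (w p))) ≤ (2 ^ κ) ^ #(List (Iio (w p) × Iio (w p))) :=
              power_le_power_right hW
          _ ≤ (2 ^ κ) ^ N p := by
              apply power_le_power_left _ h1
              exact (power_pos _ (by norm_num)).ne'
          _ = 2 ^ (κ * N p) := by rw [← power_mul]
          _ = 2 ^ N p := by rw [mul_eq_right (hN0 p) (hN1 p) (aleph0_pos.trans_le hκ).ne']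
          _ ≤ μ := power_le_power_left (by norm_num) (le_TT_iter _ s)
      have hS : 2 ^ μ < #(C p) := by
        have := hbig p
        rw [Function.iterate_succ_apply'] at this
        exact this
      obtain ⟨H, hHμ, col, hcol'⟩ := erdos_rado hμ0 f hcol hS
      refine ⟨Subtype.val '' H, ?_, ?_, ?_⟩
      · rintro _ ⟨x, _, rfl⟩
        exact x.2
      · rw [mk_image_eq Subtype.val_injective]
        exact (cantor _).trans hHμ
      · rintro _ ⟨x, hx, rfl⟩ _ ⟨y, hy, rfl⟩ hxy _ ⟨x', hx', rfl⟩ _ ⟨y', hy', rfl⟩ hxy' L hL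
        have e1 := hcol' x hx y hy hxy
        have e2 := hcol' x' hx' y' hy' hxy'
        have e3 : f x y = f x' y' := e1.trans e2.symm
        -- lift the list
        obtain ⟨L0, rfl⟩ : ∃ L0 : List (Iio (w p) × Iio (w p)),
            L0.map (fun z => ((z.1 : KK c), (z.2 : KK c))) = L := by
          refine ⟨L.attach.map (fun z => (⟨z.1.1, (hL z.1 z.2).1⟩, ⟨z.1.2, (hL z.1 z.2).2⟩)), ?_⟩
          rw [List.map_map]
          conv_rhs => rw [← List.attach_map_subtype_val L]
          rfl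
        exact congrFun e3 L0
    choose H hHC hHbig hHhom using hH
    have hpair : ∀ p, ∃ z : KK c × KK c, Fit H p z := by
      intro p
      obtain ⟨x, hx, y, hy, hxy⟩ := exists_pair
        (((hN0 p).trans (le_TT_iter _ s)).trans (hHbig p).le)
      exact ⟨(x, y), hx, hy, hxy⟩
    choose z hz using hpair
    obtain ⟨C', hC'H, hC'big, hC'⟩ := ih (KK κ → W) (by
      rw [mk_arrow, Cardinal.lift_id, Cardinal.lift_id, mk_KK]
      calc #W ^ κ ≤ (2 ^ κ) ^ κ := power_le_power_right hW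
        _ = 2 ^ κ := by rw [← power_mul, mul_eq_self hκ])
      (fun L p => G (z p :: L)) H (fun q p hqp x hx => hC q p hqp x (hHC q hx)) hHbig
    refine ⟨C', fun p => (hC'H p).trans (hHC p), hC'big, ?_⟩
    intro ps hps hpw L L' hL hL'
    cases ps with
    | nil =>
      rw [List.forall₂_nil_left_iff] at hL hL'
      rw [hL, hL']
    | cons p ps =>
      rw [List.forall₂_cons_left_iff] at hL hL'
      obtain ⟨y, L0, hy, hL0, rfl⟩ := hL
      obtain ⟨y', L0', hy', hL0', rfl⟩ := hL'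
      rw [List.pairwise_cons] at hpw
      have hlow : ∀ M, List.Forall₂ (Fit C') ps M → ∀ t ∈ M, t.1 < w p ∧ t.2 < w p := by
        intro M hM t ht
        obtain ⟨q, hq, hqt⟩ : ∃ q ∈ ps, Fit C' q t := by
          rw [List.forall₂_iff_get] at hM
          obtain ⟨hlen, hM⟩ := hM
          obtain ⟨i, hi⟩ := List.get_of_mem ht
          refine ⟨ps.get ⟨i, by rw [hlen]; exact i.2⟩, List.get_mem _ _, ?_⟩
          rw [← hi]
          exact hM i (by rw [hlen]; exact i.2) i.2
        have hqp : q < p := hpw.1 q hq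
        have hsub : C' q ⊆ C q := (hC'H q).trans (hHC q)
        exact ⟨hC q p hqp _ (hsub hqt.1), hC q p hqp _ (hsub hqt.2.1)⟩
      have hy2 := hy.mono hC'H
      have hy2' := hy'.mono hC'H
      have e1 : G (y :: L0) = G (z p :: L0) :=
        hHhom p y.1 hy2.1 y.2 hy2.2.1 hy2.2.2 (z p).1 (hz p).1 (z p).2 (hz p).2.1 (hz p).2.2 L0
          (hlow L0 hL0)
      have e2 : G (y' :: L0') = G (z p :: L0') :=
        hHhom p y'.1 hy2'.1 y'.2 hy2'.2.1 hy2'.2.2 (z p).1 (hz p).1 (z p).2 (hz p).2.1 (hz p).2.2 L0'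
          (hlow L0' hL0')
      have e3 := congrFun (hC' ps (by simpa using hps) hpw.2 L0 L0' hL0 hL0') p
      rw [e1, e2]
      exact e3

end Pool.Agent.Lib.MP_af714c_lc
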