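import Mathlib

/-!
# Definitions for MP_af714c_lc (cardinals `λ` with `λ² → (λ², 3)²`)
-/

set_option autoImplicit false

namespace Pool.Agent.Lib.MP_af714c_lc

universe u

open Cardinal Ordinal

/-- The ordinal partition relation `α → (β, γ)²`: for every colouring `f` of the pairs `x < y` of
elements of `α` with two colours, there is a subset `H` of `α` of order type `β` all of whose pairs
have colour `false`, or a subset `H` of order type `γ` all of whose pairs have colour `true`. -/
def Arrow (α β γ : Ordinal.{u}) : Prop :=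
  ∀ f : α.ToType → α.ToType → Bool,
    (∃ H : Set α.ToType, typeLT H = β ∧ ∀ x ∈ H, ∀ y ∈ H, x < y → f x y = false) ∨
    (∃ H : Set α.ToType, typeLT H = γ ∧ ∀ x ∈ H, ∀ y ∈ H, x < y → f x y = true)

/-- The cardinal `κ` is weakly compact: it is uncountable and `κ → (κ, κ)²`. -/
def WeaklyCompact (κ : Cardinal.{u}) : Prop :=
  ℵ₀ < κ ∧ Arrow κ.ord κ.ord κ.ord

/-- There is a `κ`-Suslin tree: a partially ordered set of cardinality `κ` in which the predecessors
of every element are well-ordered, and all chains and all antichains have fewer than `κ`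
elements. -/
def HasSuslinTree (κ : Cardinal.{u}) : Prop :=
  ∃ (T : Type u) (_ : PartialOrder T), #T = κ ∧
    (∀ t : T, IsChain (· ≤ ·) (Set.Iio t) ∧ (Set.Iio t).IsWF) ∧
    (∀ C : Set T, IsChain (· ≤ ·) C → #C < κ) ∧
    (∀ A : Set T, IsAntichain (· ≤ ·) A → #A < κ)

/-- The generalized continuum hypothesis. -/
def GCH : Prop := ∀ c : Cardinal.{u}, ℵ₀ ≤ c → 2 ^ c = Order.succ c

end Pool.Agent.Lib.MP_af714c_lc
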