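import Pool.Agent.Lib.MP_af714c_lc.Basic

/-!
# MP_af714c_lc: the Erdős–Rado theorem for pairs
-/

set_option autoImplicit false

namespace Pool.Agent.Lib.MP_af714c_lc

universe u v

open Cardinal Ordinal Set

section ER

variable {S C : Type u} [LinearOrder S] [WellFoundedLT S]

/-- the Erdős–Rado tree order -/
noncomputable def tri (f : S → S → C) : S → S → Prop :=
  (wellFounded_lt (α := S)).fix (C := fun _ => S → Prop)
    (fun a rec y => a < y ∧ ∀ z (h : z < a), rec z h a → f z a = f z y)

theorem tri_iff (f : S → S → C) (a y : S) :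
    tri f a y ↔ a < y ∧ ∀ z, tri f z a → f z a = f z y := by
  have h1 : tri f a y ↔ a < y ∧ ∀ z, z < a → tri f z a → f z a = f z y := by
    unfold tri
    conv_lhs => rw [WellFounded.fix_eq]
  rw [h1]
  constructor
  · rintro ⟨h2, h3⟩
    refine ⟨h2, fun z hz => ?_⟩
    have hza : z < a := by
      unfold tri at hz
      rw [WellFounded.fix_eq] at hz
      exact hz.1
    exact h3 z hza hz
  · rintro ⟨h2, h3⟩
    exact ⟨h2, fun z _ hz => h3 z hz⟩

theorem tri_lt {f : S → S → C} {a y : S} (h : tri f a y) : a < y := ((tri_iff f a y).1 h).1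

theorem tri_col {f : S → S → C} {z a y : S} (h : tri f a y) (hz : tri f z a) : f z a = f z y :=
  ((tri_iff f a y).1 h).2 z hz

theorem tri_trans (f : S → S → C) (z : S) : ∀ a y, tri f z a → tri f a y → tri f z y := by
  induction z using (wellFounded_lt (α := S)).induction with
  | h z ih =>
    intro a y hza hay
    rw [tri_iff]
    refine ⟨(tri_lt hza).trans (tri_lt hay), fun w hw => ?_⟩
    have hwa : tri f w a := ih w (tri_lt hw) z a hw hza
    rw [tri_col hza hw, tri_col hay hwa]

theorem tri_comp (f : S → S → C) (a : S) :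
    ∀ a' y, a < a' → tri f a y → tri f a' y → tri f a a' := by
  induction a using (wellFounded_lt (α := S)).induction with
  | h a ih =>
    intro a' y haa hay hay'
    rw [tri_iff]
    refine ⟨haa, fun z hz => ?_⟩
    have hzy : tri f z y := tri_trans f z a y hz hay
    have hza' : tri f z a' := ih z (tri_lt hz) a' y ((tri_lt hz).trans haa) hzy hay'
    rw [tri_col hay hz, tri_col hay' hza']

/-- elements with order-isomorphic predecessor sets and the same colours coincide -/
theorem tri_unique (f : S → S → C) {y y' : S} (e : {a // tri f a y} ≃o {a // tri f a y'})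
    (he : ∀ a, f a.1 y = f (e a).1 y') : y = y' := by
  have key : ∀ a : {a // tri f a y}, (e a : S) = a := by
    rintro ⟨a, ha⟩
    induction a using (wellFounded_lt (α := S)).induction with
    | h a ih =>
      set a' : S := (e ⟨a, ha⟩ : S) with ha'
      have ha'y : tri f a' y' := (e ⟨a, ha⟩).2
      -- predecessors of `a`
      have h1 : ∀ b, tri f b a → tri f b a' ∧ f b a = f b a' := by
        intro b hb
        have hby : tri f b y := tri_trans f b a y hb ha
        have heb : (e ⟨b, hby⟩ : S) = b := ih b (tri_lt hb) hby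
        have hlt0 : (⟨b, hby⟩ : {a // tri f a y}) < ⟨a, ha⟩ := by
          change b < a
          exact tri_lt hb
        have hlt : e ⟨b, hby⟩ < e ⟨a, ha⟩ := e.strictMono hlt0
        have hby' : tri f b y' := by
          have := (e ⟨b, hby⟩).2
          rwa [heb] at this
        have hba' : tri f b a' := by
          apply tri_comp f b a' y' _ hby' ha'y
          rw [← heb]; exact hlt
        refine ⟨hba', ?_⟩
        rw [tri_col ha hb, tri_col ha'y hba']
        have := he ⟨b, hby⟩
        rw [heb] at this
        exact this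
      have h2 : ∀ b, tri f b a' → tri f b a := by
        intro b hb
        have hby' : tri f b y' := tri_trans f b a' y' hb ha'y
        have hlt : e.symm ⟨b, hby'⟩ < ⟨a, ha⟩ := by
          rw [e.symm_apply_lt]
          change b < a'
          exact tri_lt hb
        have hblt : (e.symm ⟨b, hby'⟩ : S) < a := hlt
        have := ih (e.symm ⟨b, hby'⟩ : S) hblt (e.symm ⟨b, hby'⟩).2
        have heq : (e.symm ⟨b, hby'⟩ : S) = b := by
          rw [← this]
          simp
        have hby : tri f b y := by
          have := (e.symm ⟨b, hby'⟩).2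
          rwa [heq] at this
        exact tri_comp f b a y (by rw [← heq]; exact hblt) hby ha
      rcases lt_trichotomy a a' with h | h | h
      · exfalso
        have : tri f a a' := (tri_iff f a a').2 ⟨h, fun z hz => (h1 z hz).2⟩
        exact lt_irrefl _ (tri_lt (h2 a this))
      · exact h.symm
      · exfalso
        have : tri f a' a := (tri_iff f a' a).2 ⟨h, fun z hz => ((h1 z (h2 z hz)).2).symm⟩
        exact lt_irrefl _ (tri_lt (h1 a' this).1)
  have h1 : ∀ a, tri f a y → tri f a y' ∧ f a y = f a y' := by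
    intro a ha
    have := key ⟨a, ha⟩
    have h2 := (e ⟨a, ha⟩).2
    have h3 := he ⟨a, ha⟩
    rw [this] at h2 h3
    exact ⟨h2, h3⟩
  have h2 : ∀ a, tri f a y' → tri f a y := by
    intro a ha
    have h3 := key (e.symm ⟨a, ha⟩)
    rw [e.apply_symm_apply] at h3
    have h4 := (e.symm ⟨a, ha⟩).2
    rw [← h3] at h4
    exact h4
  rcases lt_trichotomy y y' with h | h | h
  · exfalso
    have : tri f y y' := (tri_iff f y y').2 ⟨h, fun z hz => (h1 z hz).2⟩
    exact lt_irrefl _ (tri_lt (h2 y this))
  · exact h
  · exfalso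
    have : tri f y' y := (tri_iff f y' y).2 ⟨h, fun z hz => ((h1 z (h2 z hz)).2).symm⟩
    exact lt_irrefl _ (tri_lt (h1 y' this).1)

/-- **Erdős–Rado**: `(2 ^ μ)⁺ → (μ⁺)²_μ`. -/
theorem erdos_rado {μ : Cardinal.{u}} (hμ : ℵ₀ ≤ μ) (f : S → S → C) (hC : #C ≤ μ)
    (hS : 2 ^ μ < #S) : ∃ H : Set S, μ < #H ∧ ∃ c, ∀ x ∈ H, ∀ y ∈ H, x < y → f x y = c := by
  by_cases hex : ∃ y, μ < #{a // tri f a y}
  · obtain ⟨y, hy⟩ := hex
    -- pigeonhole
    obtain ⟨c, hc⟩ : ∃ c, μ < #{a | tri f a y ∧ f a y = c} := by
      by_contra! hcon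
      have hsub : {a | tri f a y} ⊆ ⋃ c : C, {a | tri f a y ∧ f a y = c} := by
        intro a ha
        rw [mem_iUnion]
        exact ⟨_, ha, rfl⟩
      have h1 : #{a // tri f a y} ≤ μ := by
        refine (mk_le_mk_of_subset hsub).trans ?_
        refine (mk_iUnion_le_sum_mk).trans ?_
        refine (Cardinal.sum_le_sum _ (fun _ => μ) hcon).trans ?_
        rw [sum_const, Cardinal.lift_id, Cardinal.lift_id]
        exact (mul_le_mul' hC le_rfl).trans (mul_eq_self hμ).le
      exact absurd hy (not_lt.2 h1)
    refine ⟨_, hc, c, ?_⟩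
    rintro a ⟨ha, hac⟩ a' ⟨ha', -⟩ haa
    rw [tri_col ha' (tri_comp f a a' y haa ha ha')]
    exact hac
  · exfalso
    push Not at hex
    -- code every element
    have hiso : ∀ y, ∃ α : KK (Order.succ μ), Nonempty ({a // tri f a y} ≃o Iio α) := by
      intro y
      have h1 : typeLT {a // tri f a y} < (Order.succ μ).ord := by
        rw [lt_ord, card_type]
        exact Order.lt_succ_of_le (hex y)
      rw [← type_toType (Order.succ μ).ord, type_lt_iff] at h1
      obtain ⟨g⟩ := h1
      refine ⟨g.top, ⟨?_⟩⟩
      have h2 := g.subrelIso.symm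
      refine { toEquiv := h2.toEquiv.trans (Equiv.refl _), map_rel_iff' := ?_ }
      intro a b
      have h3 := h2.map_rel_iff (a := a) (b := b)
      have h4 := h2.map_rel_iff (a := b) (b := a)
      change h2 a ≤ h2 b ↔ a ≤ b
      rw [← not_lt, ← not_lt]
      exact not_congr h4
    choose α hα using hiso
    let code : S → Σ α : KK (Order.succ μ), (Iio α → C) := fun y =>
      ⟨α y, fun i => f ((hα y).some.symm i).1 y⟩
    have hinj : Function.Injective code := by
      intro y y' h
      have h1 : α y = α y' := congrArg Sigma.fst h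
      have h2 : ∀ (i : KK (Order.succ μ)) (hi : i < α y) (hi' : i < α y'),
          f ((hα y).some.symm ⟨i, hi⟩).1 y = f ((hα y').some.symm ⟨i, hi'⟩).1 y' := by
        intro i hi hi'
        have h3 := (Sigma.mk.inj h).2
        have : ∀ (β β' : KK (Order.succ μ)) (g : Iio β → C) (g' : Iio β' → C), β = β' → HEq g g' →
            ∀ (hi : i < β) (hi' : i < β'), g ⟨i, hi⟩ = g' ⟨i, hi'⟩ := by
          intro β β' g g' hβ hg hi hi'
          subst hβ
          rw [eq_of_heq hg]
        exact this _ _ _ _ h1 h3 hi hi'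
      let e0 : Iio (α y) ≃o Iio (α y') := OrderIso.setCongr _ _ (by rw [h1])
      apply tri_unique f (((hα y).some.trans e0).trans (hα y').some.symm)
      intro a
      have h4 := h2 ((hα y).some a) ((hα y).some a).2 (by rw [← h1]; exact ((hα y).some a).2)
      have h5 : (hα y).some.symm ⟨((hα y).some a : KK (Order.succ μ)), ((hα y).some a).2⟩ = a := by
        rw [Subtype.coe_eta]; simp
      rw [h5] at h4
      exact h4
    have hcard : #S ≤ 2 ^ μ := by
      refine (mk_le_of_injective hinj).trans ?_
      rw [mk_sigma]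
      refine (Cardinal.sum_le_sum _ (fun _ => (2 : Cardinal.{u}) ^ μ) fun i => ?_).trans ?_
      · rw [mk_arrow, Cardinal.lift_id, Cardinal.lift_id]
        have hi : #(Iio i) ≤ μ := Order.lt_succ_iff.1 (mk_Iio_lt i)
        calc #C ^ #(Iio i) ≤ (2 ^ μ) ^ #(Iio i) :=
              power_le_power_right (hC.trans (cantor μ).le)
          _ ≤ (2 ^ μ) ^ μ := by
              apply power_le_power_left _ hi
              exact (power_pos _ (by norm_num)).ne'
          _ = 2 ^ μ := by rw [← power_mul, mul_eq_self hμ]
      · rw [sum_const, Cardinal.lift_id, Cardinal.lift_id, mk_KK]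
        have h1 : Order.succ μ ≤ 2 ^ μ := Order.succ_le_of_lt (cantor μ)
        have h2 : ℵ₀ ≤ 2 ^ μ := hμ.trans (cantor μ).le
        exact (mul_le_mul' h1 le_rfl).trans (mul_eq_self h2).le
    exact absurd hS (not_lt.2 hcard)

end ER

end Pool.Agent.Lib.MP_af714c_lc
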