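import Pool.Agent.Lib.MP_af714c_lc.Basic

/-!
# MP_af714c_lc: the positive relation for `κ` with the filter extension property
-/

set_option autoImplicit false

namespace Pool.Agent.Lib.MP_af714c_lc

universe u v

open Cardinal Ordinal Set

/-- general recursion principle -/
theorem exists_rec {I : Type u} {α : Type v} [LinearOrder I] [WellFoundedLT I] [Nonempty α]
    (P : I → (I → α) → α → Prop)
    (hP : ∀ i f f', (∀ j < i, f j = f' j) → ∀ x, P i f x → P i f' x)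
    (hex : ∀ i f, (∀ j < i, P j f (f j)) → ∃ x, P i f x) :
    ∃ f : I → α, ∀ i, P i f (f i) := by
  classical
  have wf : WellFounded (fun i j : I => i < j) := wellFounded_lt
  let tr : (i : I) → (∀ j, j < i → α) → I → α :=
    fun i f j => if h : j < i then f j h else Classical.arbitrary α
  let g : (i : I) → (∀ j, j < i → α) → α :=
    fun i f => if h : ∃ x, P i (tr i f) x then Classical.choose h else Classical.arbitrary α
  let G : I → α := wf.fix g
  have hG : ∀ i, G i = g i (fun j _ => G j) := fun i => wf.fix_eq g i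
  have htr : ∀ i j, j < i → tr i (fun j _ => G j) j = G j := by
    intro i j hij
    simp [tr, hij]
  refine ⟨G, fun i => ?_⟩
  induction i using wf.induction with
  | h i ih =>
    have h1 : ∃ x, P i (tr i (fun j _ => G j)) x := by
      apply hex
      intro j hj
      rw [htr i j hj]
      exact hP j G _ (fun k hk => (htr i k (hk.trans hj)).symm) _ (ih j hj)
    apply hP i _ _ (fun j hj => htr i j hj)
    rw [hG i]
    simp only [g, h1, dif_pos]
    exact Classical.choose_spec h1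

theorem TriFree.mono {P : Type v} {r r' : P → P → Prop} (h : TriFree r)
    (hs : ∀ x y, r' x y → r' y x) (hle : ∀ x y, r' x y → r x y) : TriFree r' :=
  ⟨hs, fun x y z h1 h2 h3 => h.2 x y z (hle _ _ h1) (hle _ _ h2) (hle _ _ h3)⟩

/-- `κ → (κ, 3)²` for regular `κ` -/
theorem dm3 {κ : Cardinal.{u}} (hκ : κ.IsRegular) (rel : KK κ → KK κ → Prop) (hrel : TriFree rel)
    (A : Set (KK κ)) (hA : #A = κ) : ∃ B ⊆ A, #B = κ ∧ ∀ x ∈ B, ∀ y ∈ B, ¬ rel x y := by
  by_cases hx : ∃ x ∈ A, #{y | y ∈ A ∧ rel x y} = κ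
  · obtain ⟨x, -, hx⟩ := hx
    exact ⟨_, fun y hy => hy.1, hx, fun y hy z hz h => hrel.2 x y z hy.2 h hz.2⟩
  push Not at hx
  have hlt : ∀ x ∈ A, #{y | y ∈ A ∧ rel x y} < κ := fun x hxA =>
    lt_of_le_of_ne ((mk_set_le _).trans (mk_KK κ).le) (hx x hxA)
  have : Nonempty (KK κ) := by
    rw [← mk_ne_zero_iff, mk_KK]; exact hκ.ne_zero
  obtain ⟨G, hG⟩ := exists_rec (I := KK κ) (α := KK κ)
    (fun i f x => x ∈ A ∧ ∀ j < i, x ≠ f j ∧ ¬ rel (f j) x)
    (by
      intro i f f' hff x hx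
      exact ⟨hx.1, fun j hj => by rw [← hff j hj]; exact hx.2 j hj⟩)
    (by
      intro i f hf
      by_contra! hcon
      have hsub : A ⊆ ⋃ j : Iio i, (insert (f j) {y | y ∈ A ∧ rel (f j) y}) := by
        intro x hx
        obtain ⟨j, hj, hj'⟩ := hcon x hx
        rw [mem_iUnion]
        refine ⟨⟨j, hj⟩, ?_⟩
        by_cases hxj : x = f j
        · exact Or.inl hxj
        · exact Or.inr ⟨hx, hj' hxj⟩
      have h1 : #(⋃ j : Iio i, (insert (f j) {y | y ∈ A ∧ rel (f j) y}) : Set (KK κ)) < κ := by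
        rw [card_iUnion_lt_iff_forall_of_isRegular hκ (mk_Iio_lt i)]
        intro j
        refine mk_insert_le.trans_lt ?_
        exact add_lt_of_lt hκ.aleph0_le (hlt _ (hf j j.2).1) (one_lt_aleph0.trans_le hκ.aleph0_le)
      exact absurd ((mk_le_mk_of_subset hsub).trans_lt h1) (by rw [hA]; exact lt_irrefl _))
  refine ⟨range G, ?_, ?_, ?_⟩
  · rintro _ ⟨i, rfl⟩
    exact (hG i).1
  · rw [mk_range_eq, mk_KK]
    intro i j hij
    rcases lt_trichotomy i j with h | h | h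
    · exact absurd hij.symm ((hG j).2 i h).1
    · exact h
    · exact absurd hij ((hG i).2 j h).1
  · rintro _ ⟨i, rfl⟩ _ ⟨j, rfl⟩ h
    rcases lt_trichotomy i j with h' | h' | h'
    · exact ((hG j).2 i h').2 h
    · subst h'
      exact hrel.irrefl _ h
    · exact ((hG i).2 j h').2 (hrel.1 _ _ h)

/-- every `κ`-complete filter on `κ` can be extended to one that decides `κ` given sets -/
def ExtProp (κ : Cardinal.{u}) : Prop :=
  ∀ F : Filter (KK κ), F.NeBot → CardinalInterFilter F κ → ∀ X : KK κ → Set (KK κ),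
    ∃ F' ≤ F, F'.NeBot ∧ CardinalInterFilter F' κ ∧ ∀ i, X i ∈ F' ∨ (X i)ᶜ ∈ F'

theorem ExtProp.index {κ : Cardinal.{u}} (h : ExtProp κ) {ι : Type u} (hι : #ι = κ)
    (F : Filter (KK κ)) (hF : F.NeBot) (hF' : CardinalInterFilter F κ) (X : ι → Set (KK κ)) :
    ∃ F' ≤ F, F'.NeBot ∧ CardinalInterFilter F' κ ∧ ∀ i, X i ∈ F' ∨ (X i)ᶜ ∈ F' := by
  obtain ⟨e⟩ : Nonempty (ι ≃ KK κ) := by rw [← Cardinal.eq, mk_KK, hι]
  obtain ⟨F', h1, h2, h3, h4⟩ := h F hF hF' (fun i => X (e.symm i))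
  exact ⟨F', h1, h2, h3, fun i => by simpa using h4 (e i)⟩

theorem atTop_cardinalInter {κ : Cardinal.{u}} (hκ : κ.IsRegular) :
    CardinalInterFilter (Filter.atTop : Filter (KK κ)) κ := by
  have : Nonempty (KK κ) := by
    rw [← mk_ne_zero_iff, mk_KK]; exact hκ.ne_zero
  refine ⟨fun S hS hS' => ?_⟩
  have : ∀ s : S, ∃ a, ∀ b, a ≤ b → b ∈ (s : Set (KK κ)) := fun s =>
    Filter.mem_atTop_sets.1 (hS' s s.2)
  choose a ha using this
  obtain ⟨x, hx⟩ := exists_bound_reg hκ (S := range a) (mk_range_le.trans_lt hS)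
  rw [Filter.mem_atTop_sets]
  refine ⟨x, fun b hb s hs => ?_⟩
  exact ha ⟨s, hs⟩ b ((hx _ ⟨⟨s, hs⟩, rfl⟩).le.trans hb)

/-- a bookkeeping function -/
theorem exists_bookkeeping {κ : Cardinal.{u}} (hκ : κ.IsRegular) :
    ∃ ρ : KK κ → KK κ, (∀ i, ρ i ≤ i) ∧ ∀ i, #{j | ρ j = i} = κ := by
  classical
  obtain ⟨e⟩ : Nonempty (KK κ ≃ KK κ × KK κ) := by
    rw [← Cardinal.eq, mk_prod, Cardinal.lift_id, mk_KK, mul_eq_self hκ.aleph0_le]
  refine ⟨fun i => if (e i).1 ≤ i then (e i).1 else i, fun i => ?_, fun i => ?_⟩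
  · dsimp only
    split_ifs with h
    · exact h
    · exact le_rfl
  · have h1 : #{j | (e j).1 = i} = κ := by
      apply le_antisymm ((mk_set_le _).trans (mk_KK κ).le)
      refine (mk_KK κ).ge.trans ?_
      exact mk_le_of_injective (f := fun k : KK κ => (⟨e.symm (i, k), by simp⟩ : {j | (e j).1 = i}))
        (by
          intro k k' h
          have := congrArg (fun x : {j | (e j).1 = i} => e x) h
          simpa using this)
    apply mk_of_cofinal hκ
    intro x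
    obtain ⟨j, hj, hj'⟩ := exists_gt_of_mk hκ.aleph0_le h1 (max x i)
    refine ⟨j, ?_, ((le_max_left _ _).trans_lt hj').le⟩
    have : (e j).1 ≤ j := by rw [show (e j).1 = i from hj]; exact ((le_max_right _ _).trans_lt hj').le
    simp only [mem_ofPred_eq, this, if_true]
    exact hj

theorem pos_of_ext {κ : Cardinal.{u}} (hκ : κ.IsRegular) (hE : ExtProp κ) : Pos (KK κ) := by
  classical
  intro r hr
  by_cases hcase : ∃ x, Big {y | r x y}
  · obtain ⟨x, hx⟩ := hcase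
    exact ⟨_, fun y hy z hz h => hr.2 x y z hy h hz, hx⟩
  push Not at hcase
  have : Nonempty (KK κ) := by
    rw [← mk_ne_zero_iff, mk_KK]; exact hκ.ne_zero
  have hnomax := noMax hκ.aleph0_le
  -- small neighbourhoods
  have hγ : ∀ x : KK κ × KK κ, ∃ γ, ∀ c, γ ≤ c → ∃ δ, ∀ d, r x (c, d) → d < δ := by
    intro x
    have h1 : #{c : KK κ | #{d : KK κ | (c, d) ∈ {y | r x y}} = κ} < κ := by
      have := hcase x
      unfold Big at this
      rw [mk_KK] at this
      exact lt_of_le_of_ne ((mk_set_le _).trans (mk_KK κ).le) this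
    obtain ⟨γ, hγ⟩ := exists_bound_reg hκ h1
    refine ⟨γ, fun c hc => ?_⟩
    have h2 : #{d : KK κ | (c, d) ∈ {y | r x y}} < κ := by
      refine lt_of_le_of_ne ((mk_set_le _).trans (mk_KK κ).le) fun h => ?_
      exact absurd (hγ c h) (not_lt.2 hc)
    obtain ⟨δ, hδ⟩ := exists_bound_reg hκ h2
    exact ⟨δ, fun d hd => hδ d hd⟩
  choose γ hγ using hγ
  -- the filters
  obtain ⟨F1, hF1, hF1n, hF1c, hF1d⟩ := hE.index (ι := KK κ × KK κ × KK κ) (by
    simp only [mk_prod, Cardinal.lift_id, mk_KK, mul_eq_self hκ.aleph0_le]) Filter.atTop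
    inferInstance (atTop_cardinalInter hκ) (fun p => {d | r (p.1, p.2.1) (p.2.2, d)})
  obtain ⟨F2, hF2, hF2n, hF2c, hF2d⟩ := hE.index (ι := KK κ × KK κ) (by
    simp only [mk_prod, Cardinal.lift_id, mk_KK, mul_eq_self hκ.aleph0_le]) F1 hF1n hF1c
    (fun p => {b | {d | r (p.1, b) (p.2, d)} ∈ F1})
  let E : KK κ → KK κ → Prop := fun a c => {b | {d | r (a, b) (c, d)} ∈ F1} ∈ F2
  have hE3 : ∀ a1 a2 a3, E a1 a2 → E a2 a3 → E a1 a3 → False := by
    intro a1 a2 a3 h12 h23 h13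
    obtain ⟨b1, hb12, hb13⟩ := hF2n.nonempty_of_mem (Filter.inter_mem h12 h13)
    obtain ⟨b2, hb2, hb23⟩ := hF2n.nonempty_of_mem (Filter.inter_mem (hF2 hb12) h23)
    obtain ⟨b3, hb31, hb32⟩ := hF1n.nonempty_of_mem (Filter.inter_mem hb13 hb23)
    exact hr.2 (a1, b1) (a2, b2) (a3, b3) hb2 hb32 hb31
  obtain ⟨A1, -, hA1, hA1'⟩ := dm3 hκ (colGraph fun a c => decide (E a c)) (by
    refine ⟨fun x y h => colGraph_symm _ x y h, fun x y z h1 h2 h3 => ?_⟩
    obtain ⟨a, b, c, -, -, hab, hbc, hac⟩ := colGraph_triangle _ x y z h1 h2 h3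
    exact hE3 a b c (of_decide_eq_true hab) (of_decide_eq_true hbc) (of_decide_eq_true hac))
    Set.univ (by rw [mk_univ, mk_KK])
  obtain ⟨A, hAsub, hA, hA'⟩ := dm3 hκ (colGraph fun a c => decide (E c a)) (by
    refine ⟨fun x y h => colGraph_symm _ x y h, fun x y z h1 h2 h3 => ?_⟩
    obtain ⟨a, b, c, -, -, hab, hbc, hac⟩ := colGraph_triangle _ x y z h1 h2 h3
    exact hE3 c b a (of_decide_eq_true hbc) (of_decide_eq_true hab) (of_decide_eq_true hac))
    A1 hA1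
  have hAE : ∀ a ∈ A, ∀ c ∈ A, ¬ E a c := by
    intro a ha c hc h
    rcases lt_trichotomy a c with hac | hac | hac
    · exact hA1' a (hAsub ha) c (hAsub hc) (Or.inl ⟨hac, decide_eq_true h⟩)
    · subst hac
      exact hE3 a a a h h h
    · exact hA' c hc a ha (Or.inl ⟨hac, decide_eq_true h⟩)
  have hnotD : ∀ a ∈ A, ∀ c ∈ A, ∀ᶠ b in F2, ¬ {d | r (a, b) (c, d)} ∈ F1 := by
    intro a ha c hc
    exact (hF2d (a, c)).resolve_left (hAE a ha c hc)
  have hF1F2 : ∀ s : Set (KK κ), s ∈ F1 → s ∈ F2 := fun s hs => hF2 hs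
  have hev : ∀ x : KK κ, ∀ᶠ b in F2, x < b := fun x => hF2 (hF1 (Filter.eventually_gt_atTop x))
  obtain ⟨ρ, hρ, hρ'⟩ := exists_bookkeeping hκ
  -- the recursion
  let P : KK κ → (KK κ → KK κ × KK κ) → KK κ × KK κ → Prop := fun ξ f p =>
    p.1 ∈ A ∧ (∀ η < ξ, (f η).1 < p.1) ∧ (∀ η < ξ, γ ((f (ρ η)).1, (f η).2) ≤ p.1) ∧
    (∀ η < ξ, (f η).2 < p.2) ∧
    (∀ i < ξ, ¬ {d | r ((if ρ ξ < ξ then (f (ρ ξ)).1 else p.1), p.2) ((f i).1, d)} ∈ F1) ∧
    (¬ {d | r ((if ρ ξ < ξ then (f (ρ ξ)).1 else p.1), p.2) (p.1, d)} ∈ F1) ∧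
    (∀ η < ξ, ¬ r ((f (ρ η)).1, (f η).2) ((if ρ ξ < ξ then (f (ρ ξ)).1 else p.1), p.2))
  obtain ⟨f, hf⟩ := exists_rec P (by
    intro ξ f f' hff p hp
    have e1 : ∀ η < ξ, f' η = f η := fun η hη => (hff η hη).symm
    have e2 : ∀ η < ξ, f' (ρ η) = f (ρ η) := fun η hη => (hff _ ((hρ η).trans_lt hη)).symm
    have e3 : (if ρ ξ < ξ then (f' (ρ ξ)).1 else p.1) = (if ρ ξ < ξ then (f (ρ ξ)).1 else p.1) := by
      by_cases h : ρ ξ < ξ
      · simp only [h, if_true, e1 _ h]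
      · simp only [h, if_false]
    obtain ⟨h1, h2, h3, h4, h5, h6, h7⟩ := hp
    refine ⟨h1, fun η hη => by rw [e1 η hη]; exact h2 η hη,
      fun η hη => by rw [e1 η hη, e2 η hη]; exact h3 η hη,
      fun η hη => by rw [e1 η hη]; exact h4 η hη, ?_, ?_, ?_⟩
    · intro i hi
      rw [e3, e1 i hi]; exact h5 i hi
    · rw [e3]; exact h6
    · intro η hη
      rw [e3, e1 η hη, e2 η hη]; exact h7 η hη) (by
    intro ξ f hf
    -- the new row
    obtain ⟨x1, hx1⟩ := exists_bound_reg hκ (S := (fun η => (f η).1) '' Iio ξ)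
      (mk_image_le.trans_lt (mk_Iio_lt ξ))
    obtain ⟨x2, hx2⟩ := exists_bound_reg hκ (S := (fun η => γ ((f (ρ η)).1, (f η).2)) '' Iio ξ)
      (mk_image_le.trans_lt (mk_Iio_lt ξ))
    obtain ⟨a, haA, ha⟩ := exists_gt_of_mk hκ.aleph0_le hA (max x1 x2)
    have ha1 : ∀ η < ξ, (f η).1 < a := fun η hη =>
      (hx1 _ (mem_image_of_mem _ hη)).trans ((le_max_left _ _).trans_lt ha)
    have ha2 : ∀ η < ξ, γ ((f (ρ η)).1, (f η).2) ≤ a := fun η hη =>
      ((hx2 _ (mem_image_of_mem _ hη)).trans ((le_max_right _ _).trans_lt ha)).le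
    set a' := (if ρ ξ < ξ then (f (ρ ξ)).1 else a) with ha'
    have ha'A : a' ∈ A := by
      rw [ha']
      split_ifs with h
      · exact (hf _ h).1
      · exact haA
    have hρrow : ∀ η < ξ, (if ρ η < η then (f (ρ η)).1 else (f η).1) = (f (ρ η)).1 := by
      intro η _
      by_cases h : ρ η < η
      · simp only [h, if_true]
      · have : ρ η = η := le_antisymm (hρ η) (not_lt.1 h)
        simp only [this, lt_irrefl, if_false]
    have E1 : ∀ᶠ b in F2, ∀ η : Iio ξ, (f η).2 < b :=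
      (Filter.eventually_cardinal_forall (mk_Iio_lt ξ)).2 fun η => hev _
    have E2 : ∀ᶠ b in F2, ∀ i : Iio ξ, ¬ {d | r (a', b) ((f i).1, d)} ∈ F1 :=
      (Filter.eventually_cardinal_forall (mk_Iio_lt ξ)).2 fun i => hnotD _ ha'A _ (hf i i.2).1
    have E3 : ∀ᶠ b in F2, ¬ {d | r (a', b) (a, d)} ∈ F1 := hnotD _ ha'A _ haA
    have E4 : ∀ᶠ b in F2, ∀ η : Iio ξ, ¬ r ((f (ρ η)).1, (f η).2) (a', b) := by
      refine (Filter.eventually_cardinal_forall (mk_Iio_lt ξ)).2 fun η => ?_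
      have hη : (η : KK κ) < ξ := η.2
      -- a' is either an old row or a new one
      have hnew : γ ((f (ρ η)).1, (f η).2) ≤ a' →
          ∀ᶠ b in F2, ¬ r ((f (ρ η)).1, (f η).2) (a', b) := by
        intro h
        obtain ⟨δ, hδ⟩ := hγ _ _ h
        exact (hev δ).mono fun b hb hrb => absurd (hδ b hrb) (not_lt.2 hb.le)
      by_cases hξ : ρ ξ < ξ
      · have ha'e : a' = (f (ρ ξ)).1 := by rw [ha']; simp only [hξ, if_true]
        rcases lt_trichotomy (ρ ξ) (η : KK κ) with h | h | h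
        · have h5 := (hf η hη).2.2.2.2.1 (ρ ξ) h
          rw [hρrow η hη, ← ha'e] at h5
          have := (hF1d ((f (ρ η)).1, (f η).2, a')).resolve_left h5
          exact hF2 this
        · have h6 := (hf η hη).2.2.2.2.2.1
          rw [hρrow η hη] at h6
          have ha'e' : a' = (f η).1 := by rw [ha'e, h]
          rw [← ha'e'] at h6
          have := (hF1d ((f (ρ η)).1, (f η).2, a')).resolve_left h6
          exact hF2 this
        · apply hnew
          rw [ha'e]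
          exact (hf _ hξ).2.2.1 η h
      · apply hnew
        have : a' = a := by rw [ha']; simp only [hξ, if_false]
        rw [this]
        exact ha2 η hη
    obtain ⟨b, hb1, hb2, hb3, hb4⟩ := (E1.and (E2.and (E3.and E4))).exists
    exact ⟨(a, b), haA, ha1, ha2, fun η hη => hb1 ⟨η, hη⟩, fun i hi => hb2 ⟨i, hi⟩, hb3,
      fun η hη => hb4 ⟨η, hη⟩⟩)
  have hρrow : ∀ ξ, (if ρ ξ < ξ then (f (ρ ξ)).1 else (f ξ).1) = (f (ρ ξ)).1 := by
    intro ξ
    by_cases h : ρ ξ < ξ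
    · simp only [h, if_true]
    · have : ρ ξ = ξ := le_antisymm (hρ ξ) (not_lt.1 h)
      simp only [this, lt_irrefl, if_false]
  have hinj1 : StrictMono (fun ξ => (f ξ).1) := fun η ξ h => (hf ξ).2.1 η h
  have hinj2 : StrictMono (fun ξ => (f ξ).2) := fun η ξ h => (hf ξ).2.2.2.1 η h
  refine ⟨range (fun ξ => ((f (ρ ξ)).1, (f ξ).2)), ?_, ?_⟩
  · have key : ∀ η ξ, η < ξ → ¬ r ((f (ρ η)).1, (f η).2) ((f (ρ ξ)).1, (f ξ).2) := by
      intro η ξ h
      have := (hf ξ).2.2.2.2.2.2 η h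
      rwa [hρrow ξ] at this
    rintro _ ⟨η, rfl⟩ _ ⟨ξ, rfl⟩ h
    rcases lt_trichotomy η ξ with h' | h' | h'
    · exact key _ _ h' h
    · subst h'
      exact hr.irrefl _ h
    · exact key _ _ h' (hr.1 _ _ h)
  · unfold Big
    rw [mk_KK]
    apply mk_of_cofinal hκ
    intro x
    refine ⟨(f x).1, ?_, hinj1.le_apply⟩
    apply mk_of_cofinal hκ
    intro y
    obtain ⟨ξ, hξ, hξ'⟩ := exists_gt_of_mk hκ.aleph0_le (hρ' x) y
    refine ⟨(f ξ).2, ⟨ξ, ?_⟩, hξ'.le.trans hinj2.le_apply⟩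
    dsimp only
    rw [show ρ ξ = x from hξ]

end Pool.Agent.Lib.MP_af714c_lc
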