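import Pool.Agent.Lib.MP_af714c_lc.Canon
import Pool.Agent.Lib.MP_af714c_lc.Pos

/-!
# MP_af714c_lc: singular strong limit cardinals
-/

set_option autoImplicit false

namespace Pool.Agent.Lib.MP_af714c_lc

universe u v

open Cardinal Ordinal Set

theorem exists_mk_Iio {c θ : Cardinal.{u}} (h : θ < c) : ∃ x : KK c, #(Iio x) = θ := by
  have h1 : θ.ord < type ((· < ·) : KK c → KK c → Prop) := by
    rw [type_toType]
    exact ord_lt_ord.2 h
  refine ⟨enum (α := KK c) (· < ·) ⟨θ.ord, h1⟩, ?_⟩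
  have h2 : #(Iio (enum (α := KK c) (· < ·) ⟨θ.ord, h1⟩)) =
      (typein (α := KK c) (· < ·) (enum (α := KK c) (· < ·) ⟨θ.ord, h1⟩)).card := rfl
  rw [h2, typein_enum, card_ord]

theorem exists_big_Ico {c : Cardinal.{u}} (hc : c.IsStrongLimit) (u : KK c) {θ : Cardinal.{u}}
    (hθ : θ < c) (hc' : ℵ₀ < c) : ∃ v, θ < #(Ico u v) := by
  set m := max (max θ #(Iio u)) ℵ₀ with hm
  have hmc : m < c := max_lt (max_lt hθ (mk_Iio_lt u)) hc'
  have hsc : Order.succ m < c := hc.isSuccLimit.succ_lt hmc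
  obtain ⟨v, hv⟩ := exists_mk_Iio hsc
  refine ⟨v, ?_⟩
  by_contra! hle
  have hsub : Iio v ⊆ Iio u ∪ Ico u v := by
    intro x hx
    rcases lt_or_ge x u with h | h
    · exact Or.inl h
    · exact Or.inr ⟨h, hx⟩
  have h1 : #(Iio v) ≤ m := by
    refine (mk_le_mk_of_subset hsub).trans ((mk_union_le _ _).trans ?_)
    refine (add_le_add (?_ : _ ≤ m) (?_ : _ ≤ m)).trans (add_eq_self (le_max_right _ _)).le
    · exact (le_max_right _ _).trans (le_max_left _ _)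
    · exact hle.trans ((le_max_left _ _).trans (le_max_left _ _))
  rw [hv] at h1
  exact absurd (Order.lt_succ m) (not_lt.2 h1)

theorem TT_iter_lt {c : Cardinal.{u}} (hc : c.IsStrongLimit) {N : Cardinal.{u}} (hN : N < c)
    (s : ℕ) : (TT^[s]) N < c := by
  induction s with
  | zero => exact hN
  | succ s ih =>
    rw [Function.iterate_succ_apply']
    exact hc.isStrongPrelimit (hc.isStrongPrelimit ih)

/-- the blocks -/
theorem exists_blocks {c : Cardinal.{u}} (hc : c.IsStrongLimit) (hs : c.ord.cof < c) (s : ℕ) :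
    ∃ (w : KK c.ord.cof → KK c) (I : KK c.ord.cof → Set (KK c)) (N : KK c.ord.cof → Cardinal.{u}),
      (∀ p, c.ord.cof ≤ N p) ∧ (∀ p, #(Iio (w p)) ≤ N p) ∧
      (∀ q p, q < p → ∀ x ∈ I q, x < w p) ∧ (∀ p, ∀ x ∈ I p, w p ≤ x) ∧
      (∀ p, (TT^[s]) (N p) < #(I p)) ∧ ∀ θ < c, ∃ p, ∀ q, p ≤ q → θ ≤ N q := by
  have hc0 : ℵ₀ ≤ c := hc.aleph0_le
  have hreg := isRegular_cof' hc0
  have hc1 : ℵ₀ < c := hreg.aleph0_le.trans_lt hs
  obtain ⟨g, hg, hgc⟩ := exists_cofinal_map c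
  have : Nonempty (KK c × KK c) := by
    have : Nonempty (KK c) := by
      rw [← mk_ne_zero_iff, mk_KK]; exact (aleph0_pos.trans_le hc0).ne'
    infer_instance
  obtain ⟨f, hf⟩ := exists_rec (I := KK c.ord.cof) (α := KK c × KK c)
    (fun p f x => (∀ q < p, (f q).2 ≤ x.1) ∧ g p ≤ x.1 ∧
      (TT^[s]) (max c.ord.cof #(Iio x.1)) < #(Ico x.1 x.2))
    (by
      intro p f f' hff x hx
      exact ⟨fun q hq => by rw [← hff q hq]; exact hx.1 q hq, hx.2⟩)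
    (by
      intro p f _
      obtain ⟨u0, hu0⟩ := exists_bound (c := c) (S := (fun q => (f q).2) '' Iio p)
        (mk_image_le.trans_lt (mk_Iio_lt p))
      set u := max u0 (g p) with hu
      have h1 : (TT^[s]) (max c.ord.cof #(Iio u)) < c :=
        TT_iter_lt hc (max_lt hs (mk_Iio_lt u)) s
      obtain ⟨v, hv⟩ := exists_big_Ico hc u h1 hc1
      exact ⟨(u, v), fun q hq => (hu0 _ (mem_image_of_mem _ hq)).le.trans (le_max_left _ _),
        le_max_right _ _, hv⟩)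
  refine ⟨fun p => (f p).1, fun p => Ico (f p).1 (f p).2, fun p => max c.ord.cof #(Iio (f p).1),
    fun p => le_max_left _ _, fun p => le_max_right _ _, ?_, fun p x hx => hx.1,
    fun p => (hf p).2.2, ?_⟩
  · intro q p hqp x hx
    exact hx.2.trans_le ((hf p).1 q hqp)
  · intro θ hθ
    obtain ⟨x, hx⟩ := exists_mk_Iio hθ
    obtain ⟨p, hp⟩ := hgc x
    refine ⟨p, fun q hq => ?_⟩
    rw [← hx]
    refine le_trans ?_ (le_max_right _ _)
    apply mk_le_mk_of_subset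
    apply Iio_subset_Iio
    exact hp.trans ((hg.monotone hq).trans (hf q).2.1)

/-- pick one of the two elements -/
def pk {K : Type u} (z : K × K) (ε : Bool) : K := if ε then z.2 else z.1

/-- homogeneous blocks for a binary relation on `K × K` -/
theorem exists_hom {κ c : Cardinal.{u}} (hκ : ℵ₀ ≤ κ) (w : KK κ → KK c)
    (N : KK κ → Cardinal.{u}) (hN1 : ∀ p, κ ≤ N p) (hN2 : ∀ p, #(Iio (w p)) ≤ N p)
    (I : KK κ → Set (KK c)) (hI : ∀ q p, q < p → ∀ x ∈ I q, x < w p)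
    (hbig : ∀ p, (TT^[4]) (N p) < #(I p)) (r : KK c × KK c → KK c × KK c → Prop) :
    ∃ C' : KK κ → Set (KK c), (∀ p, C' p ⊆ I p) ∧ (∀ p, N p < #(C' p)) ∧
      ∀ (z z' : KK κ → KK c × KK c) (p1 p2 p3 p4 : KK κ) (ε1 ε2 ε3 ε4 : Bool),
        (∀ p, p = p1 ∨ p = p2 ∨ p = p3 ∨ p = p4 → Fit C' p (z p) ∧ Fit C' p (z' p)) →
        r (pk (z p1) ε1, pk (z p2) ε2) (pk (z p3) ε3, pk (z p4) ε4) →
        r (pk (z' p1) ε1, pk (z' p2) ε2) (pk (z' p3) ε3, pk (z' p4) ε4) := by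
  classical
  by_cases hne : Nonempty (KK c)
  swap
  · refine ⟨fun p => I p, fun p => Subset.rfl, fun p => (le_TT_iter _ _).trans_lt (hbig p), ?_⟩
    intro z _ p1
    exact absurd ⟨(z p1).1⟩ hne
  let d : KK c × KK c := (Classical.arbitrary _, Classical.arbitrary _)
  let Ix := (ℕ × Bool) × (ℕ × Bool) × (ℕ × Bool) × (ℕ × Bool)
  let W : Type u := ULift.{u} (Ix → Prop)
  have hW : #W ≤ 2 ^ κ := by
    have h1 : #W = Cardinal.lift.{u} (2 ^ (ℵ₀ : Cardinal.{0})) := by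
      rw [mk_uLift, mk_arrow, Cardinal.lift_id, Cardinal.lift_id, mk_Prop]
      have : #Ix = ℵ₀ := by simp [Ix]
      rw [this]
    rw [h1, Cardinal.lift_power, lift_aleph0, Cardinal.lift_ofNat]
    exact power_le_power_left (by norm_num) hκ
  let G : List (KK c × KK c) → W := fun L => ⟨fun t =>
    r (pk (L.getD t.1.1 d) t.1.2, pk (L.getD t.2.1.1 d) t.2.1.2)
      (pk (L.getD t.2.2.1.1 d) t.2.2.1.2, pk (L.getD t.2.2.2.1 d) t.2.2.2.2)⟩
  obtain ⟨C', h1, h2, h3⟩ := canon hκ w N hN1 hN2 4 W hW G I hI hbig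
  refine ⟨C', h1, h2, ?_⟩
  intro z z' p1 p2 p3 p4 ε1 ε2 ε3 ε4 hz hr
  let F : Finset (KK κ) := {p1, p2, p3, p4}
  let ps : List (KK κ) := F.sort (· ≥ ·)
  have hmem : ∀ p, p ∈ ps ↔ p = p1 ∨ p = p2 ∨ p = p3 ∨ p = p4 := by
    intro p
    simp [ps, F]
  have hlen : ps.length ≤ 4 := by
    simp only [ps, Finset.length_sort, F]
    exact Finset.card_le_four
  have hpw : ps.Pairwise (· > ·) := by
    have h4 := Finset.pairwise_sort F (· ≥ ·)
    have h5 : ps.Nodup := Finset.sort_nodup F (· ≥ ·)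
    exact (List.pairwise_and_iff.2 ⟨h4, h5⟩).imp fun h => lt_of_le_of_ne h.1 h.2.symm
  have hfit : ∀ y : KK κ → KK c × KK c, (∀ p ∈ ps, Fit C' p (y p)) →
      List.Forall₂ (Fit C') ps (ps.map y) := by
    intro y hy
    rw [List.forall₂_map_right_iff, List.forall₂_same]
    exact hy
  have hG := h3 ps hlen hpw (ps.map z) (ps.map z')
    (hfit z fun p hp => (hz p ((hmem p).1 hp)).1) (hfit z' fun p hp => (hz p ((hmem p).1 hp)).2)
  have hget : ∀ (y : KK κ → KK c × KK c) (p : KK κ), p ∈ ps →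
      (ps.map y).getD (ps.idxOf p) d = y p := by
    intro y p hp
    have hlt : ps.idxOf p < ps.length := List.idxOf_lt_length_iff.2 hp
    rw [List.getD_eq_getElem _ _ (by rw [List.length_map]; exact hlt), List.getElem_map,
      List.getElem_idxOf]
  have hG2 := congrFun (congrArg ULift.down hG)
    ((ps.idxOf p1, ε1), (ps.idxOf p2, ε2), (ps.idxOf p3, ε3), (ps.idxOf p4, ε4))
  have m1 : p1 ∈ ps := (hmem _).2 (by simp)
  have m2 : p2 ∈ ps := (hmem _).2 (by simp)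
  have m3 : p3 ∈ ps := (hmem _).2 (by simp)
  have m4 : p4 ∈ ps := (hmem _).2 (by simp)
  simp only [G, hget _ _ m1, hget _ _ m2, hget _ _ m3, hget _ _ m4] at hG2
  exact hG2.mp hr

theorem exists_triple {K : Type u} [LinearOrder K] [WellFoundedLT K] {H : Set K}
    (h : ℵ₀ ≤ #H) : ∃ x ∈ H, ∃ y ∈ H, ∃ z ∈ H, x < y ∧ y < z := by
  have hinf : H.Infinite := by
    rw [← Set.infinite_coe_iff, infinite_iff]; exact h
  obtain ⟨m, hm, hmin⟩ := (wellFounded_lt (α := K)).has_min H hinf.nonempty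
  have hinf' : (H \ {m}).Infinite := hinf.sdiff (Set.finite_singleton m)
  have h' : ℵ₀ ≤ #(H \ {m} : Set K) := by
    rw [← infinite_iff, Set.infinite_coe_iff]; exact hinf'
  obtain ⟨y, hy, z, hz, hyz⟩ := exists_pair h'
  refine ⟨m, hm, y, hy.1, z, hz.1, ?_, hyz⟩
  exact lt_of_le_of_ne (not_lt.1 (hmin y hy.1)) (fun h => hy.2 h.symm)

theorem pos_of_strongLimit {c : Cardinal.{u}} (hc : c.IsStrongLimit) (hs : c.ord.cof < c)
    (hpos : Pos (KK c.ord.cof)) : Pos (KK c) := by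
  classical
  intro r hr
  have hc0 : ℵ₀ ≤ c := hc.aleph0_le
  set κ := c.ord.cof with hκdef
  have hreg : κ.IsRegular := isRegular_cof' hc0
  obtain ⟨w, I, N, hN1, hN2, hI1, hI2, hbig, hNcof⟩ := exists_blocks hc hs 4
  obtain ⟨C, hCI, hCN, hhom⟩ := exists_hom hreg.aleph0_le w N hN1 hN2 I hI1 hbig r
  have hC0 : ∀ p, ℵ₀ ≤ #(C p) := fun p => (hreg.aleph0_le.trans (hN1 p)).trans (hCN p).le
  -- two positions
  have hp2 : ∀ p q, p ≠ q → ∀ Z V Z' V', Fit C p Z → Fit C q V → Fit C p Z' → Fit C q V' →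
      ∀ ε1 ε2 ε3 ε4, r (pk Z ε1, pk V ε2) (pk Z ε3, pk V ε4) →
      r (pk Z' ε1, pk V' ε2) (pk Z' ε3, pk V' ε4) := by
    intro p q hpq Z V Z' V' hZ hV hZ' hV' ε1 ε2 ε3 ε4 h
    have := hhom (fun x => if x = p then Z else V) (fun x => if x = p then Z' else V') p q p q
      ε1 ε2 ε3 ε4 (by
        rintro x (rfl | rfl | rfl | rfl)
        · simp [hZ, hZ']
        · simp [hpq.symm, hV, hV']
        · simp [hZ, hZ']
        · simp [hpq.symm, hV, hV'])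
    simp only [if_true, hpq.symm, if_false] at this
    exact this h
  have hp3 : ∀ p q1 q2, p ≠ q1 → p ≠ q2 → q1 ≠ q2 → ∀ Z V1 V2 Z' V1' V2',
      Fit C p Z → Fit C q1 V1 → Fit C q2 V2 → Fit C p Z' → Fit C q1 V1' → Fit C q2 V2' →
      ∀ ε1 ε2 ε3 ε4, r (pk Z ε1, pk V1 ε2) (pk Z ε3, pk V2 ε4) →
      r (pk Z' ε1, pk V1' ε2) (pk Z' ε3, pk V2' ε4) := by
    intro p q1 q2 h1 h2 h3 Z V1 V2 Z' V1' V2' hZ hV1 hV2 hZ' hV1' hV2' ε1 ε2 ε3 ε4 h
    have := hhom (fun x => if x = p then Z else if x = q1 then V1 else V2)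
      (fun x => if x = p then Z' else if x = q1 then V1' else V2') p q1 p q2
      ε1 ε2 ε3 ε4 (by
        rintro x (rfl | rfl | rfl | rfl)
        · simp [hZ, hZ']
        · simp [h1.symm, hV1, hV1']
        · simp [hZ, hZ']
        · simp [h2.symm, h3.symm, hV2, hV2'])
    simp only [if_true, h1.symm, h2.symm, h3.symm, if_false] at this
    exact this h
  have hp4 : ∀ p1 p2 p3 p4, p1 ≠ p2 → p1 ≠ p3 → p1 ≠ p4 → p2 ≠ p3 → p2 ≠ p4 → p3 ≠ p4 →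
      ∀ Z1 Z2 Z3 Z4 Z1' Z2' Z3' Z4', Fit C p1 Z1 → Fit C p2 Z2 → Fit C p3 Z3 → Fit C p4 Z4 →
      Fit C p1 Z1' → Fit C p2 Z2' → Fit C p3 Z3' → Fit C p4 Z4' →
      ∀ ε1 ε2 ε3 ε4, r (pk Z1 ε1, pk Z2 ε2) (pk Z3 ε3, pk Z4 ε4) →
      r (pk Z1' ε1, pk Z2' ε2) (pk Z3' ε3, pk Z4' ε4) := by
    intro p1 p2 p3 p4 h12 h13 h14 h23 h24 h34 Z1 Z2 Z3 Z4 Z1' Z2' Z3' Z4' f1 f2 f3 f4 f1' f2' f3'
      f4' ε1 ε2 ε3 ε4 h
    have := hhom (fun x => if x = p1 then Z1 else if x = p2 then Z2 else if x = p3 then Z3 else Z4)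
      (fun x => if x = p1 then Z1' else if x = p2 then Z2' else if x = p3 then Z3' else Z4')
      p1 p2 p3 p4 ε1 ε2 ε3 ε4 (by
        rintro x (rfl | rfl | rfl | rfl)
        · simp [f1, f1']
        · simp [h12.symm, f2, f2']
        · simp [h13.symm, h23.symm, f3, f3']
        · simp [h14.symm, h24.symm, h34.symm, f4, f4'])
    simp only [if_true, h12.symm, h13.symm, h14.symm, h23.symm, h24.symm, h34.symm, if_false] at this
    exact this h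
  -- a chosen triple and pair in every block
  have htrip : ∀ p, ∃ x y z, Fit C p (x, y) ∧ Fit C p (y, z) ∧ Fit C p (x, z) := by
    intro p
    obtain ⟨x, hx, y, hy, z, hz, hxy, hyz⟩ := exists_triple (hC0 p)
    exact ⟨x, y, z, ⟨hx, hy, hxy⟩, ⟨hy, hz, hyz⟩, ⟨hx, hz, hxy.trans hyz⟩⟩
  -- no edges inside a product of two blocks
  have hsame1 : ∀ p q, p ≠ q → ∀ Z V, Fit C p Z → Fit C q V → ¬ r (Z.1, V.1) (Z.2, V.2) := by
    intro p q hpq Z V hZ hV h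
    obtain ⟨x1, x2, x3, hx12, hx23, hx13⟩ := htrip p
    obtain ⟨y1, y2, y3, hy12, hy23, hy13⟩ := htrip q
    exact hr.2 (x1, y1) (x2, y2) (x3, y3)
      (hp2 p q hpq Z V _ _ hZ hV hx12 hy12 false false true true h)
      (hp2 p q hpq Z V _ _ hZ hV hx23 hy23 false false true true h)
      (hp2 p q hpq Z V _ _ hZ hV hx13 hy13 false false true true h)
  have hsame2 : ∀ p q, p ≠ q → ∀ Z V, Fit C p Z → Fit C q V → ¬ r (Z.1, V.2) (Z.2, V.1) := by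
    intro p q hpq Z V hZ hV h
    obtain ⟨x1, x2, x3, hx12, hx23, hx13⟩ := htrip p
    obtain ⟨y1, y2, y3, hy12, hy23, hy13⟩ := htrip q
    exact hr.2 (x1, y3) (x2, y2) (x3, y1)
      (hp2 p q hpq Z V _ _ hZ hV hx12 hy23 false true true false h)
      (hp2 p q hpq Z V _ _ hZ hV hx23 hy12 false true true false h)
      (hp2 p q hpq Z V _ _ hZ hV hx13 hy13 false true true false h)
  have hsame3 : ∀ p q, p ≠ q → ∀ Z V, Fit C p Z → Fit C q V → ¬ r (Z.1, V.1) (Z.2, V.1) := by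
    intro p q hpq Z V hZ hV h
    obtain ⟨x1, x2, x3, hx12, hx23, hx13⟩ := htrip p
    exact hr.2 (x1, V.1) (x2, V.1) (x3, V.1)
      (hp2 p q hpq Z V _ _ hZ hV hx12 hV false false true false h)
      (hp2 p q hpq Z V _ _ hZ hV hx23 hV false false true false h)
      (hp2 p q hpq Z V _ _ hZ hV hx13 hV false false true false h)
  have hsame4 : ∀ p q, p ≠ q → ∀ Z V, Fit C p Z → Fit C q V → ¬ r (Z.1, V.1) (Z.1, V.2) := by
    intro p q hpq Z V hZ hV h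
    obtain ⟨y1, y2, y3, hy12, hy23, hy13⟩ := htrip q
    exact hr.2 (Z.1, y1) (Z.1, y2) (Z.1, y3)
      (hp2 p q hpq Z V _ _ hZ hV hZ hy12 false false false true h)
      (hp2 p q hpq Z V _ _ hZ hV hZ hy23 false false false true h)
      (hp2 p q hpq Z V _ _ hZ hV hZ hy13 false false false true h)
  -- the positions
  obtain ⟨e⟩ : Nonempty ((KK κ ⊕ (KK κ × KK κ)) ↪ KK κ) := by
    have : #(KK κ ⊕ (KK κ × KK κ)) ≤ #(KK κ) := by
      simp only [mk_sum, mk_prod, Cardinal.lift_id, mk_KK, mul_eq_self hreg.aleph0_le,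
        add_eq_self hreg.aleph0_le, le_refl]
    exact this
  let R : KK κ → KK κ := fun i => e (Sum.inl i)
  let Q : KK κ → KK κ → KK κ := fun i j => e (Sum.inr (i, j))
  have hRR : ∀ i k, i ≠ k → R i ≠ R k := fun i k h h' => h (Sum.inl_injective (e.injective h'))
  have hRQ : ∀ i k l, R i ≠ Q k l := fun i k l h' => by
    have := e.injective h'
    exact absurd this (by simp)
  have hQQ : ∀ i j k l, (i, j) ≠ (k, l) → Q i j ≠ Q k l := fun i j k l h h' =>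
    h (Sum.inr_injective (e.injective h'))
  -- same row block
  let LT : KK κ → KK κ → KK κ → Prop := fun i j l =>
    ∃ Z V1 V2, Fit C (R i) Z ∧ Fit C (Q i j) V1 ∧ Fit C (Q i l) V2 ∧ r (Z.1, V1.1) (Z.2, V2.1)
  let EQ : KK κ → KK κ → KK κ → Prop := fun i j l =>
    ∃ Z V1 V2, Fit C (R i) Z ∧ Fit C (Q i j) V1 ∧ Fit C (Q i l) V2 ∧ r (Z.1, V1.1) (Z.1, V2.1)
  have hLT : ∀ i j l, j ≠ l → LT i j l → ∀ Z V1 V2, Fit C (R i) Z → Fit C (Q i j) V1 →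
      Fit C (Q i l) V2 → r (Z.1, V1.1) (Z.2, V2.1) := by
    rintro i j l hjl ⟨Z, V1, V2, hZ, hV1, hV2, h⟩ Z' V1' V2' hZ' hV1' hV2'
    exact hp3 _ _ _ (hRQ _ _ _) (hRQ _ _ _) (hQQ _ _ _ _ (by simp [hjl])) Z V1 V2 Z' V1' V2'
      hZ hV1 hV2 hZ' hV1' hV2' false false true false h
  have hEQ : ∀ i j l, j ≠ l → EQ i j l → ∀ Z V1 V2, Fit C (R i) Z → Fit C (Q i j) V1 →
      Fit C (Q i l) V2 → r (Z.1, V1.1) (Z.1, V2.1) := by
    rintro i j l hjl ⟨Z, V1, V2, hZ, hV1, hV2, h⟩ Z' V1' V2' hZ' hV1' hV2'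
    exact hp3 _ _ _ (hRQ _ _ _) (hRQ _ _ _) (hQQ _ _ _ _ (by simp [hjl])) Z V1 V2 Z' V1' V2'
      hZ hV1 hV2 hZ' hV1' hV2' false false false false h
  have hB : ∀ i, ∃ B : Set (KK κ), #B = κ ∧ ∀ j ∈ B, ∀ l ∈ B, j ≠ l → ¬ LT i j l ∧ ¬ EQ i j l := by
    intro i
    obtain ⟨x1, x2, x3, hx12, hx23, hx13⟩ := htrip (R i)
    obtain ⟨B1, -, hB1, hB1'⟩ := dm3 hreg (colGraph fun j l => decide (LT i j l)) (by
      refine ⟨fun x y h => colGraph_symm _ x y h, fun x y z h1 h2 h3 => ?_⟩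
      obtain ⟨j1, j2, j3, h12, h23, h1', h2', h3'⟩ := colGraph_triangle _ x y z h1 h2 h3
      obtain ⟨y1, _, _, hy1, -, -⟩ := htrip (Q i j1)
      obtain ⟨y2, _, _, hy2, -, -⟩ := htrip (Q i j2)
      obtain ⟨y3, _, _, hy3, -, -⟩ := htrip (Q i j3)
      exact hr.2 (x1, y1) (x2, y2) (x3, y3)
        (hLT i j1 j2 h12.ne (of_decide_eq_true h1') _ _ _ hx12 hy1 hy2)
        (hLT i j2 j3 h23.ne (of_decide_eq_true h2') _ _ _ hx23 hy2 hy3)
        (hLT i j1 j3 (h12.trans h23).ne (of_decide_eq_true h3') _ _ _ hx13 hy1 hy3))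
      Set.univ (by rw [mk_univ, mk_KK])
    obtain ⟨B2, hB21, hB2, hB2'⟩ := dm3 hreg (colGraph fun j l => decide (LT i l j)) (by
      refine ⟨fun x y h => colGraph_symm _ x y h, fun x y z h1 h2 h3 => ?_⟩
      obtain ⟨j1, j2, j3, h12, h23, h1', h2', h3'⟩ := colGraph_triangle _ x y z h1 h2 h3
      obtain ⟨y1, _, _, hy1, -, -⟩ := htrip (Q i j1)
      obtain ⟨y2, _, _, hy2, -, -⟩ := htrip (Q i j2)
      obtain ⟨y3, _, _, hy3, -, -⟩ := htrip (Q i j3)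
      exact hr.2 (x1, y3) (x2, y2) (x3, y1)
        (hLT i j3 j2 h23.ne' (of_decide_eq_true h2') _ _ _ hx12 hy3 hy2)
        (hLT i j2 j1 h12.ne' (of_decide_eq_true h1') _ _ _ hx23 hy2 hy1)
        (hLT i j3 j1 (h12.trans h23).ne' (of_decide_eq_true h3') _ _ _ hx13 hy3 hy1))
      B1 hB1
    obtain ⟨B3, hB32, hB3, hB3'⟩ := dm3 hreg (colGraph fun j l => decide (EQ i j l)) (by
      refine ⟨fun x y h => colGraph_symm _ x y h, fun x y z h1 h2 h3 => ?_⟩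
      obtain ⟨j1, j2, j3, h12, h23, h1', h2', h3'⟩ := colGraph_triangle _ x y z h1 h2 h3
      obtain ⟨y1, _, _, hy1, -, -⟩ := htrip (Q i j1)
      obtain ⟨y2, _, _, hy2, -, -⟩ := htrip (Q i j2)
      obtain ⟨y3, _, _, hy3, -, -⟩ := htrip (Q i j3)
      exact hr.2 (x1, y1) (x1, y2) (x1, y3)
        (hEQ i j1 j2 h12.ne (of_decide_eq_true h1') _ _ _ hx12 hy1 hy2)
        (hEQ i j2 j3 h23.ne (of_decide_eq_true h2') _ _ _ hx12 hy2 hy3)
        (hEQ i j1 j3 (h12.trans h23).ne (of_decide_eq_true h3') _ _ _ hx12 hy1 hy3))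
      B2 hB2
    refine ⟨B3, hB3, ?_⟩
    have hEQsymm : ∀ j l, EQ i j l → EQ i l j := by
      rintro j l ⟨Z, V1, V2, hZ, hV1, hV2, h⟩
      exact ⟨Z, V2, V1, hZ, hV2, hV1, hr.1 _ _ h⟩
    intro j hj l hl hjl
    rcases lt_or_gt_of_ne hjl with h | h
    · exact ⟨fun h' => hB1' j (hB21 (hB32 hj)) l (hB21 (hB32 hl)) (Or.inl ⟨h, decide_eq_true h'⟩),
        fun h' => hB3' j hj l hl (Or.inl ⟨h, decide_eq_true h'⟩)⟩
    · exact ⟨fun h' => hB2' l (hB32 hl) j (hB32 hj) (Or.inl ⟨h, decide_eq_true h'⟩),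
        fun h' => hB3' l hl j hj (Or.inl ⟨h, decide_eq_true (hEQsymm _ _ h')⟩)⟩
  choose B hBκ hBr using hB
  have hE : ∀ i, ∃ E : KK κ → KK κ, Function.Injective E ∧ ∀ j, E j ∈ B i := by
    intro i
    obtain ⟨e'⟩ : Nonempty (KK κ ≃ B i) := by rw [← Cardinal.eq, mk_KK, hBκ i]
    exact ⟨fun j => e' j, fun a b h => e'.injective (Subtype.ext h), fun j => (e' j).2⟩
  choose E hEinj hEB using hE
  -- the index graph
  let rI : KK κ × KK κ → KK κ × KK κ → Prop := fun x y => x.1 ≠ y.1 ∧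
    ∃ Z1 Z2 Z3 Z4, Fit C (R x.1) Z1 ∧ Fit C (Q x.1 (E x.1 x.2)) Z2 ∧ Fit C (R y.1) Z3 ∧
      Fit C (Q y.1 (E y.1 y.2)) Z4 ∧ r (Z1.1, Z2.1) (Z3.1, Z4.1)
  have hrI : ∀ x y, rI x y → ∀ Z1 Z2 Z3 Z4, Fit C (R x.1) Z1 → Fit C (Q x.1 (E x.1 x.2)) Z2 →
      Fit C (R y.1) Z3 → Fit C (Q y.1 (E y.1 y.2)) Z4 → r (Z1.1, Z2.1) (Z3.1, Z4.1) := by
    rintro x y ⟨hne, Z1, Z2, Z3, Z4, f1, f2, f3, f4, h⟩ Z1' Z2' Z3' Z4' f1' f2' f3' f4'
    exact hp4 _ _ _ _ (hRQ _ _ _) (hRR _ _ hne) (hRQ _ _ _) (hRQ _ _ _).symm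
      (hQQ _ _ _ _ (by simp [hne])) (hRQ _ _ _) Z1 Z2 Z3 Z4 Z1' Z2' Z3' Z4' f1 f2 f3 f4
      f1' f2' f3' f4' false false false false h
  have hrIT : TriFree rI := by
    constructor
    · rintro x y ⟨hne, Z1, Z2, Z3, Z4, f1, f2, f3, f4, h⟩
      exact ⟨hne.symm, Z3, Z4, Z1, Z2, f3, f4, f1, f2, hr.1 _ _ h⟩
    · intro x y z hxy hyz hxz
      obtain ⟨a1, _, _, ha1, -, -⟩ := htrip (R x.1)
      obtain ⟨a2, _, _, ha2, -, -⟩ := htrip (R y.1)
      obtain ⟨a3, _, _, ha3, -, -⟩ := htrip (R z.1)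
      obtain ⟨b1, _, _, hb1, -, -⟩ := htrip (Q x.1 (E x.1 x.2))
      obtain ⟨b2, _, _, hb2, -, -⟩ := htrip (Q y.1 (E y.1 y.2))
      obtain ⟨b3, _, _, hb3, -, -⟩ := htrip (Q z.1 (E z.1 z.2))
      exact hr.2 (a1, b1) (a2, b2) (a3, b3) (hrI _ _ hxy _ _ _ _ ha1 hb1 ha2 hb2)
        (hrI _ _ hyz _ _ _ _ ha2 hb2 ha3 hb3) (hrI _ _ hxz _ _ _ _ ha1 hb1 ha3 hb3)
  obtain ⟨Y, hYind, hYbig⟩ := hpos rI hrIT
  -- the independent set
  refine ⟨{x | ∃ i j, (i, j) ∈ Y ∧ (∃ Z, Fit C (R i) Z ∧ x.1 = Z.1) ∧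
    ∃ V, Fit C (Q i (E i j)) V ∧ x.2 = V.1}, ?_, ?_⟩
  · rintro ⟨a, b⟩ ⟨i, j, hij, ⟨Z, hZ, rfl⟩, V, hV, rfl⟩ ⟨a', b'⟩
      ⟨k, l, hkl, ⟨Z', hZ', rfl⟩, V', hV', rfl⟩ h
    by_cases hik : i = k
    · subst hik
      by_cases hjl : j = l
      · subst hjl
        rcases lt_trichotomy Z.1 Z'.1 with hZZ | hZZ | hZZ <;>
          rcases lt_trichotomy V.1 V'.1 with hVV | hVV | hVV
        · exact hsame1 _ _ (hRQ _ _ _) (Z.1, Z'.1) (V.1, V'.1) ⟨hZ.1, hZ'.1, hZZ⟩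
            ⟨hV.1, hV'.1, hVV⟩ h
        · rw [← hVV] at h
          exact hsame3 _ _ (hRQ _ _ _) (Z.1, Z'.1) V ⟨hZ.1, hZ'.1, hZZ⟩ hV h
        · exact hsame2 _ _ (hRQ _ _ _) (Z.1, Z'.1) (V'.1, V.1) ⟨hZ.1, hZ'.1, hZZ⟩
            ⟨hV'.1, hV.1, hVV⟩ h
        · rw [← hZZ] at h
          exact hsame4 _ _ (hRQ _ _ _) Z (V.1, V'.1) hZ ⟨hV.1, hV'.1, hVV⟩ h
        · rw [← hZZ, ← hVV] at h
          exact hr.irrefl _ h
        · rw [← hZZ] at h
          exact hsame4 _ _ (hRQ _ _ _) Z (V'.1, V.1) hZ ⟨hV'.1, hV.1, hVV⟩ (hr.1 _ _ h)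
        · exact hsame2 _ _ (hRQ _ _ _) (Z'.1, Z.1) (V.1, V'.1) ⟨hZ'.1, hZ.1, hZZ⟩
            ⟨hV.1, hV'.1, hVV⟩ (hr.1 _ _ h)
        · rw [← hVV] at h
          exact hsame3 _ _ (hRQ _ _ _) (Z'.1, Z.1) V ⟨hZ'.1, hZ.1, hZZ⟩ hV (hr.1 _ _ h)
        · exact hsame1 _ _ (hRQ _ _ _) (Z'.1, Z.1) (V'.1, V.1) ⟨hZ'.1, hZ.1, hZZ⟩
            ⟨hV'.1, hV.1, hVV⟩ (hr.1 _ _ h)
      · have hE1 : E i j ≠ E i l := fun h' => hjl (hEinj i h')
        rcases lt_trichotomy Z.1 Z'.1 with hZZ | hZZ | hZZ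
        · exact (hBr i _ (hEB i j) _ (hEB i l) hE1).1
            ⟨(Z.1, Z'.1), V, V', ⟨hZ.1, hZ'.1, hZZ⟩, hV, hV', h⟩
        · rw [← hZZ] at h
          exact (hBr i _ (hEB i j) _ (hEB i l) hE1).2 ⟨Z, V, V', hZ, hV, hV', h⟩
        · exact (hBr i _ (hEB i l) _ (hEB i j) hE1.symm).1
            ⟨(Z'.1, Z.1), V', V, ⟨hZ'.1, hZ.1, hZZ⟩, hV', hV, hr.1 _ _ h⟩
    · exact hYind _ hij _ hkl ⟨hik, Z, V, Z', V', hZ, hV, hZ', hV', h⟩
  · -- size
    have hsize : ∀ p, N p ≤ #{x | ∃ Z, Fit C p Z ∧ x = Z.1} := by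
      intro p
      by_contra! hlt
      have hsub : ∃ m : KK c, C p ⊆ insert m {x | ∃ Z, Fit C p Z ∧ x = Z.1} := by
        by_cases hmax : ∃ m ∈ C p, ∀ y ∈ C p, y ≤ m
        · obtain ⟨m, hm, hm'⟩ := hmax
          refine ⟨m, fun x hx => ?_⟩
          rcases (hm' x hx).eq_or_lt with h | h
          · exact Or.inl h
          · exact Or.inr ⟨(x, m), ⟨hx, hm, h⟩, rfl⟩
        · push Not at hmax
          obtain ⟨x0, _⟩ := htrip p
          refine ⟨x0, fun x hx => ?_⟩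
          obtain ⟨y, hy, hxy⟩ := hmax x hx
          exact Or.inr ⟨(x, y), ⟨hx, hy, hxy⟩, rfl⟩
      obtain ⟨m, hm⟩ := hsub
      have h1 : #(C p) ≤ N p := by
        refine (mk_le_mk_of_subset hm).trans (mk_insert_le.trans ?_)
        refine (add_le_add hlt.le (one_le_aleph0.trans (hreg.aleph0_le.trans (hN1 p)))).trans ?_
        exact (add_eq_self (hreg.aleph0_le.trans (hN1 p))).le
      exact absurd (hCN p) (not_lt.2 h1)
    -- a union of blocks over `κ` positions has full size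
    have hfull : ∀ (P : KK κ → KK κ) (S : Set (KK κ)) (T : Set (KK c)), Function.Injective P →
        #S = κ → (∀ j ∈ S, ∀ Z, Fit C (P j) Z → Z.1 ∈ T) → #T = c := by
      intro P S T hP hS hT
      apply le_antisymm ((mk_set_le _).trans (mk_KK c).le)
      by_contra! hlt
      obtain ⟨p0, hp0⟩ := hNcof (Order.succ #T) (hc.isSuccLimit.succ_lt hlt)
      have hPS : #(P '' S) = κ := by rw [mk_image_eq hP, hS]
      obtain ⟨_, ⟨j, hj, rfl⟩, hj'⟩ := exists_gt_of_mk hreg.aleph0_le hPS p0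
      have h1 := (hp0 _ hj'.le).trans (hsize (P j))
      have h2 : #{x | ∃ Z, Fit C (P j) Z ∧ x = Z.1} ≤ #T := by
        apply mk_le_mk_of_subset
        rintro _ ⟨Z, hZ, rfl⟩
        exact hT j hj Z hZ
      exact absurd (Order.lt_succ #T) (not_lt.2 (h1.trans h2))
    unfold Big at hYbig ⊢
    rw [mk_KK] at hYbig ⊢
    apply hfull R _ _ (fun i k h => Sum.inl_injective (e.injective h)) hYbig
    intro i hi Z hZ
    have hrow : #{j | (i, j) ∈ Y} = κ := hi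
    have hQinj : Function.Injective (fun j => Q i (E i j)) := by
      intro j l h
      have := Sum.inr_injective (e.injective h)
      exact hEinj i (Prod.mk.injEq _ _ _ _ ▸ this : _ ∧ _).2
    apply hfull (fun j => Q i (E i j)) _ _ hQinj hrow
    intro j hj V hV
    exact ⟨i, j, hj, ⟨Z, hZ, rfl⟩, V, hV, rfl⟩

end Pool.Agent.Lib.MP_af714c_lc
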