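import Pool.Agent.Lib.MP_af714c_lc.Basic

/-!
# MP_af714c_lc: successor cardinals `κ = μ⁺ = 2 ^ μ`
-/

set_option autoImplicit false

namespace Pool.Agent.Lib.MP_af714c_lc

universe u v

open Cardinal Ordinal Set

section succ

variable {μ : Cardinal.{u}} {K : Type u} [LinearOrder K]

/-- codes for the sets `{(c i, D i k)}` -/
abbrev Code (μ : Cardinal.{u}) (K : Type u) : Type u := (KK μ → K) × (KK μ → KK μ → K)

/-- good codes: the blocks `{c i} × D i` live in pairwise disjoint increasing intervals -/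
def GoodCode (Y : Code μ K) : Prop :=
  (∀ i, Function.Injective (Y.2 i)) ∧ (∀ i k, Y.1 i < Y.2 i k) ∧
    ∀ i j, i < j → ∀ k, Y.2 i k < Y.1 j

/-- the adjacency relation defined from the lower neighbourhoods `N d c` of the points `(c, d)` -/
def adj (N : K → K → Set (K × K)) (x y : K × K) : Prop :=
  (y.2 < x.2 ∧ y ∈ N x.2 x.1) ∨ (x.2 < y.2 ∧ x ∈ N y.2 y.1)

theorem adj_symm {N : K → K → Set (K × K)} {x y : K × K} (h : adj N x y) : adj N y x := Or.symm h

/-- shape of the lower neighbourhoods -/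
def Shape (N : K → K → Set (K × K)) : Prop :=
  (∀ d c, ∀ x ∈ N d c, c < x.2 ∧ x.2 < d) ∧
    ∀ d c a b b', (a, b) ∈ N d c → (a, b') ∈ N d c → b = b'

theorem avoid (hμ : ℵ₀ ≤ μ) {Y : Code μ K} (hY : GoodCode Y) {N : K → K → Set (K × K)}
    (hN : Shape N) (Q : Set (K × K)) (hQ : #Q < μ) :
    ∃ i k, (∀ q ∈ Q, q.1 ≠ Y.1 i) ∧ ∀ q ∈ Q, ¬ adj N (Y.1 i, Y.2 i k) q := by
  obtain ⟨h1, h2, h3⟩ := hY
  have hcinj : ∀ i j, Y.1 i = Y.1 j → i = j := by
    intro i j hij
    rcases lt_trichotomy i j with h | h | h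
    · exact absurd ((h2 i i).trans (h3 i j h i)) (by rw [hij]; exact lt_irrefl _)
    · exact h
    · exact absurd ((h2 j j).trans (h3 j i h j)) (by rw [hij]; exact lt_irrefl _)
  set B1 : Set (KK μ) := {i | ∃ q ∈ Q, q.1 = Y.1 i} with hB1
  set B2 : Set (KK μ) := {i | ∃ q ∈ Q, Y.1 i < q.2 ∧ ∃ k, q.2 ≤ Y.2 i k} with hB2
  have hc1 : #B1 ≤ #Q := by
    choose f hf using fun i : B1 => i.2
    refine mk_le_of_injective (f := fun i : B1 => (⟨f i, (hf i).1⟩ : Q)) ?_
    intro i j hij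
    have h : f i = f j := congrArg (fun q : Q => (q : K × K)) hij
    exact Subtype.ext (hcinj _ _ (by rw [← (hf i).2, ← (hf j).2, h]))
  have hc2 : #B2 ≤ #Q := by
    choose f hf using fun i : B2 => i.2
    refine mk_le_of_injective (f := fun i : B2 => (⟨f i, (hf i).1⟩ : Q)) ?_
    intro i j hij
    have h : f i = f j := congrArg (fun q : Q => (q : K × K)) hij
    obtain ⟨-, hi1, ki, hi2⟩ := hf i
    obtain ⟨-, hj1, kj, hj2⟩ := hf j
    rw [h] at hi1 hi2
    apply Subtype.ext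
    rcases lt_trichotomy (i : KK μ) j with hlt | heq | hlt
    · exact absurd (hj1.trans_le (hi2.trans (h3 _ _ hlt ki).le)) (lt_irrefl _)
    · exact heq
    · exact absurd (hi1.trans_le (hj2.trans (h3 _ _ hlt kj).le)) (lt_irrefl _)
  obtain ⟨i, hi⟩ : ∃ i, i ∉ B1 ∪ B2 := by
    by_contra! hcon
    have huniv : B1 ∪ B2 = Set.univ := eq_univ_of_forall hcon
    have : #(KK μ) ≤ #B1 + #B2 := by
      rw [← mk_univ, ← huniv]
      exact mk_union_le _ _
    rw [mk_KK] at this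
    exact absurd this (not_le.2 (add_lt_of_lt hμ (hc1.trans_lt hQ) (hc2.trans_lt hQ)))
  rw [mem_union, not_or] at hi
  set B3 : Set (KK μ) := {k | ∃ q ∈ Q, (Y.1 i, Y.2 i k) ∈ N q.2 q.1} with hB3
  have hc3 : #B3 ≤ #Q := by
    choose f hf using fun i : B3 => i.2
    refine mk_le_of_injective (f := fun i : B3 => (⟨f i, (hf i).1⟩ : Q)) ?_
    intro k k' hkk
    have h : f k = f k' := congrArg (fun q : Q => (q : K × K)) hkk
    have e1 := (hf k).2
    have e2 := (hf k').2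
    rw [h] at e1
    exact Subtype.ext (h1 i (hN.2 _ _ _ _ _ e1 e2))
  obtain ⟨k, hk⟩ : ∃ k, k ∉ B3 := by
    by_contra! hcon
    have huniv : B3 = Set.univ := eq_univ_of_forall hcon
    have : #(KK μ) ≤ #B3 := by
      rw [← mk_univ, ← huniv]
    rw [mk_KK] at this
    exact absurd this (not_le.2 (hc3.trans_lt hQ))
  refine ⟨i, k, fun q hq h => hi.1 ⟨q, hq, h⟩, ?_⟩
  rintro q hq (⟨h, h'⟩ | ⟨h, h'⟩)
  · exact hi.2 ⟨q, hq, (hN.1 _ _ _ h').1, k, h.le⟩
  · exact hk ⟨q, hq, h'⟩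

/-- what is required from the lower neighbourhood `M` of `(c, d)` -/
def StepProp (code : Code μ K → K) (N : K → K → Set (K × K)) (d c : K) (M : Set (K × K)) : Prop :=
  (∀ x ∈ M, c < x.2 ∧ x.2 < d) ∧ (∀ a b b', (a, b) ∈ M → (a, b') ∈ M → b = b') ∧
    (∀ x ∈ M, ∀ y ∈ M, ¬ adj N x y) ∧
    ∀ Y : Code μ K, GoodCode Y → code Y < d → (∀ i, c < Y.1 i) → (∀ i k, Y.2 i k < d) →
      ∃ i k, (Y.1 i, Y.2 i k) ∈ M

theorem exists_step (hμ : ℵ₀ ≤ μ) (code : Code μ K → K) (hcode : Function.Injective code)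
    {N : K → K → Set (K × K)} (hN : Shape N) (d c : K) (hd : #(Iio d) ≤ μ) :
    ∃ M, StepProp code N d c M := by
  let I : Type u := {Y : Code μ K // GoodCode Y ∧ code Y < d ∧ (∀ i, c < Y.1 i) ∧
    ∀ i k, Y.2 i k < d}
  have hI : #I ≤ #(KK μ) := by
    rw [mk_KK]
    refine le_trans ?_ hd
    refine mk_le_of_injective (f := fun Y : I => (⟨code Y.1, Y.2.2.1⟩ : Iio d)) ?_
    intro Y Y' h
    exact Subtype.ext (hcode (congrArg (fun x : Iio d => (x : K)) h))
  obtain ⟨em⟩ := hI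
  have wf : WellFounded (fun i j : I => em i < em j) := InvImage.wf em wellFounded_lt
  have hne : ∀ (Y : I) (f : ∀ Y', em Y' < em Y → K × K), ∃ x : K × K,
      (∃ i k, x = (Y.1.1 i, Y.1.2 i k)) ∧ ∀ Y' (h : em Y' < em Y), (f Y' h).1 ≠ x.1 ∧
        ¬ adj N x (f Y' h) := by
    intro Y f
    obtain ⟨i, k, h1, h2⟩ := avoid hμ Y.2.1 hN
      (range (fun j : {j // em j < em Y} => f j.1 j.2)) (by
        refine mk_range_le.trans_lt ?_
        refine lt_of_le_of_lt ?_ (mk_Iio_lt (em Y))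
        refine mk_le_of_injective (f := fun j => (⟨em j.1, j.2⟩ : Iio (em Y))) ?_
        intro a b hab
        have := congrArg (fun x : Iio (em Y) => (x : KK μ)) hab
        exact Subtype.ext (em.injective this))
    refine ⟨_, ⟨i, k, rfl⟩, fun Y' h => ⟨h1 _ ⟨⟨Y', h⟩, rfl⟩, h2 _ ⟨⟨Y', h⟩, rfl⟩⟩⟩
  choose g hg hg' using hne
  let G : I → K × K := wf.fix g
  have hG : ∀ i, G i = g i (fun j _ => G j) := fun i => wf.fix_eq g i
  have hlt : ∀ i j, em j < em i → (G j).1 ≠ (G i).1 ∧ ¬ adj N (G i) (G j) := by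
    intro i j hij
    rw [hG i]
    exact hg' i (fun j _ => G j) j hij
  have hmem : ∀ Y : I, ∃ i k, G Y = (Y.1.1 i, Y.1.2 i k) := by
    intro Y
    rw [hG Y]
    exact hg Y _
  refine ⟨range G, ?_, ?_, ?_, ?_⟩
  · rintro _ ⟨Y, rfl⟩
    obtain ⟨i, k, h⟩ := hmem Y
    rw [h]
    exact ⟨(Y.2.2.2.1 i).trans (Y.2.1.2.1 i k), Y.2.2.2.2 i k⟩
  · rintro a b b' ⟨Y, hY⟩ ⟨Y', hY'⟩
    have hYY : (G Y).1 = (G Y').1 := by rw [hY, hY']
    have : Y = Y' := by
      by_contra hne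
      rcases lt_or_gt_of_ne (fun h => hne (em.injective h)) with h | h
      · exact (hlt _ _ h).1 hYY
      · exact (hlt _ _ h).1 hYY.symm
    subst this
    rw [hY] at hY'
    exact (Prod.mk.injEq _ _ _ _ ▸ hY' : _ ∧ _).2
  · rintro _ ⟨Y, rfl⟩ _ ⟨Y', rfl⟩ hadj
    rcases lt_trichotomy (em Y) (em Y') with h | h | h
    · exact (hlt _ _ h).2 (adj_symm hadj)
    · have := em.injective h
      subst this
      rcases hadj with ⟨h, -⟩ | ⟨h, -⟩ <;> exact lt_irrefl _ h
    · exact (hlt _ _ h).2 hadj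
  · intro Y hY h1 h2 h3
    obtain ⟨i, k, h⟩ := hmem ⟨Y, hY, h1, h2, h3⟩
    exact ⟨i, k, ⟨_, h⟩⟩

/-- the lower neighbourhoods of all points -/
theorem exists_N [WellFoundedLT K] (hμ : ℵ₀ ≤ μ) (code : Code μ K → K)
    (hcode : Function.Injective code) (hd : ∀ d : K, #(Iio d) ≤ μ) :
    ∃ N : K → K → Set (K × K), ∀ d c, StepProp code N d c (N d c) := by
  classical
  have wf : WellFounded (fun i j : K => i < j) := wellFounded_lt
  let tr : (d : K) → (∀ d', d' < d → K → Set (K × K)) → K → K → Set (K × K) :=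
    fun d f d' c => if h : d' < d then f d' h c else ∅
  let g : (d : K) → (∀ d', d' < d → K → Set (K × K)) → K → Set (K × K) :=
    fun d f c => if h : ∃ M, StepProp code (tr d f) d c M then Classical.choose h else ∅
  let N : K → K → Set (K × K) := wf.fix g
  have hNe : ∀ d, N d = g d (fun d' _ => N d') := fun d => wf.fix_eq g d
  -- the truncated family
  have htr : ∀ d, (∀ d' < d, ∀ c, StepProp code (tr d' (fun e _ => N e)) d' c (N d' c)) →
      Shape (tr d (fun e _ => N e)) := by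
    intro d h
    constructor
    · intro d' c x hx
      by_cases hd' : d' < d
      · simp only [tr, hd', dif_pos] at hx
        exact (h d' hd' c).1 x hx
      · simp [tr, hd'] at hx
    · intro d' c a b b' hb hb'
      by_cases hd' : d' < d
      · simp only [tr, hd', dif_pos] at hb hb'
        exact (h d' hd' c).2.1 a b b' hb hb'
      · simp [tr, hd'] at hb
  have key : ∀ d, ∀ c, StepProp code (tr d (fun e _ => N e)) d c (N d c) := by
    intro d
    induction d using wf.induction with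
    | h d ih =>
      intro c
      have hex : ∃ M, StepProp code (tr d (fun e _ => N e)) d c M :=
        exists_step hμ code hcode (htr d ih) d c (hd d)
      rw [hNe d]
      simp only [g, hex, dif_pos]
      exact Classical.choose_spec hex
  have hadj : ∀ d x y, x.2 < d → y.2 < d → adj N x y → adj (tr d (fun e _ => N e)) x y := by
    intro d x y hx hy h
    rcases h with ⟨h, h'⟩ | ⟨h, h'⟩
    · left
      refine ⟨h, ?_⟩
      simp only [tr, hx, dif_pos]
      exact h'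
    · right
      refine ⟨h, ?_⟩
      simp only [tr, hy, dif_pos]
      exact h'
  refine ⟨N, fun d c => ⟨(key d c).1, (key d c).2.1, ?_, (key d c).2.2.2⟩⟩
  intro x hx y hy h
  exact (key d c).2.2.1 x hx y hy (hadj d x y ((key d c).1 x hx).2 ((key d c).1 y hy).2 h)

end succ

theorem not_pos_succ {μ κ : Cardinal.{u}} (hμ : ℵ₀ ≤ μ) (hκ : κ = Order.succ μ)
    (h2 : 2 ^ μ = κ) : ¬ Pos (KK κ) := by
  have hreg : κ.IsRegular := by rw [hκ]; exact isRegular_succ hμ
  have hle : ∀ d : KK κ, #(Iio d) ≤ μ := by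
    intro d
    exact Order.lt_succ_iff.1 (lt_of_lt_of_eq (mk_Iio_lt d) hκ)
  have hcodecard : #(Code μ (KK κ)) ≤ #(KK κ) := by
    have h3 : κ ^ μ = κ := by
      rw [← h2, ← power_mul, mul_eq_self hμ]
    simp only [Code, mk_prod, mk_arrow, mk_KK, Cardinal.lift_id, h3, mul_eq_self hreg.aleph0_le,
      le_refl]
  obtain ⟨⟨code, hcode⟩⟩ := hcodecard
  obtain ⟨N, hN⟩ := exists_N hμ code hcode hle
  intro hpos
  have htri : TriFree (adj N) := by
    refine ⟨fun x y h => adj_symm h, ?_⟩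
    have key : ∀ x y z, x.2 < z.2 → y.2 < z.2 → adj N x y → adj N x z → adj N y z → False := by
      intro x y z hx hy h1 h2 h3
      have hx' : x ∈ N z.2 z.1 := by
        rcases h2 with ⟨h, -⟩ | ⟨-, h⟩
        · exact absurd h (not_lt.2 hx.le)
        · exact h
      have hy' : y ∈ N z.2 z.1 := by
        rcases h3 with ⟨h, -⟩ | ⟨-, h⟩
        · exact absurd h (not_lt.2 hy.le)
        · exact h
      exact (hN z.2 z.1).2.2.1 x hx' y hy' h1
    have hne : ∀ x y, adj N x y → x.2 ≠ y.2 := by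
      rintro x y (⟨h, -⟩ | ⟨h, -⟩)
      · exact h.ne'
      · exact h.ne
    intro x y z h1 h2 h3
    rcases lt_or_gt_of_ne (hne _ _ h1) with hxy | hxy
    · rcases lt_or_gt_of_ne (hne _ _ h2) with hyz | hyz
      · exact key x y z (hxy.trans hyz) hyz h1 h3 h2
      · exact key x z y hxy hyz h3 h1 (adj_symm h2)
    · rcases lt_or_gt_of_ne (hne _ _ h3) with hxz | hxz
      · exact key x y z hxz (hxy.trans hxz) h1 h3 h2
      · exact key y z x hxy hxz h2 (adj_symm h1) (adj_symm h3)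
  obtain ⟨X, hXind, hXbig⟩ := hpos (adj N) htri
  unfold Big at hXbig
  rw [mk_KK] at hXbig
  set A : Set (KK κ) := {i | #{j | (i, j) ∈ X} = κ} with hA
  obtain ⟨c⟩ : Nonempty (KK κ) := by
    rw [← mk_ne_zero_iff, mk_KK]; exact hreg.ne_zero
  obtain ⟨c, hcA, -⟩ := exists_gt_of_mk hreg.aleph0_le hXbig c
  have hlt : μ < κ := by rw [hκ]; exact Order.lt_succ μ
  -- one block
  have hblock : ∀ S : Set (KK κ), #S < κ → ∃ p : KK κ × (KK μ → KK κ),
      (∀ y ∈ S, y < p.1) ∧ c < p.1 ∧ Function.Injective p.2 ∧ ∀ k, p.1 < p.2 k ∧ (p.1, p.2 k) ∈ X := by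
    intro S hS
    obtain ⟨x, hx⟩ := exists_bound_reg hreg hS
    obtain ⟨a, haA, ha⟩ := exists_gt_of_mk hreg.aleph0_le hXbig (max x c)
    have hrow : #({j | (a, j) ∈ X} ∩ Ioi a : Set (KK κ)) = κ := by
      apply mk_of_cofinal hreg
      intro y
      obtain ⟨z, hz, hz'⟩ := exists_gt_of_mk hreg.aleph0_le haA (max y a)
      exact ⟨z, ⟨hz, (le_max_right _ _).trans_lt hz'⟩, ((le_max_left _ _).trans_lt hz').le⟩
    have : #(KK μ) ≤ #({j | (a, j) ∈ X} ∩ Ioi a : Set (KK κ)) := by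
      rw [mk_KK, hrow]; exact hlt.le
    obtain ⟨f⟩ := this
    exact ⟨(a, fun k => f k), fun y hy => (hx y hy).trans ((le_max_left _ _).trans_lt ha),
      (le_max_right _ _).trans_lt ha, fun k k' hk => f.injective (Subtype.ext hk),
      fun k => ⟨(f k).2.2, (f k).2.1⟩⟩
  have : Nonempty (KK κ × (KK μ → KK κ)) := ⟨(c, fun _ => c)⟩
  choose! blk hblk1 hblk2 hblk3 hblk4 using hblock
  have wf : WellFounded (fun i j : KK μ => i < j) := wellFounded_lt
  let g : (i : KK μ) → (∀ j, j < i → KK κ × (KK μ → KK κ)) → KK κ × (KK μ → KK κ) :=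
    fun i f => blk (⋃ j : {j // j < i}, range (f j.1 j.2).2)
  let G : KK μ → KK κ × (KK μ → KK κ) := wf.fix g
  have hG : ∀ i, G i = blk (⋃ j : {j // j < i}, range (G j.1).2) := fun i => wf.fix_eq g i
  have hsmall : ∀ i, #(⋃ j : {j // j < i}, range (G j.1).2 : Set (KK κ)) < κ := by
    intro i
    apply lt_of_le_of_lt _ hlt
    refine (mk_iUnion_le_sum_mk).trans ?_
    refine (Cardinal.sum_le_sum _ (fun _ => μ) fun j => ?_).trans ?_
    · exact mk_range_le.trans (mk_KK μ).le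
    · rw [sum_const, Cardinal.lift_id, Cardinal.lift_id]
      refine (mul_le_mul' (mk_Iio_lt i).le le_rfl).trans ?_
      rw [mul_eq_self hμ]
  have hG1 : ∀ i j, j < i → ∀ k, (G j).2 k < (G i).1 := by
    intro i j hij k
    rw [hG i]
    apply hblk1 _ (hsmall i)
    rw [mem_iUnion]
    exact ⟨⟨j, hij⟩, k, rfl⟩
  have hG2 : ∀ i, c < (G i).1 := fun i => by rw [hG i]; exact hblk2 _ (hsmall i)
  have hG3 : ∀ i, Function.Injective (G i).2 := fun i => by rw [hG i]; exact hblk3 _ (hsmall i)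
  have hG4 : ∀ i k, (G i).1 < (G i).2 k ∧ ((G i).1, (G i).2 k) ∈ X := fun i => by
    rw [hG i]; exact hblk4 _ (hsmall i)
  let Y : Code μ (KK κ) := (fun i => (G i).1, fun i => (G i).2)
  have hYgood : GoodCode Y := ⟨hG3, fun i k => (hG4 i k).1, fun i j hij k => hG1 j i hij k⟩
  obtain ⟨e, he⟩ : ∃ e : KK κ, ∀ y ∈ (⋃ i : KK μ, range (G i).2), y < e := by
    apply exists_bound_reg hreg
    apply lt_of_le_of_lt _ hlt
    refine (mk_iUnion_le_sum_mk).trans ?_
    refine (Cardinal.sum_le_sum _ (fun _ => μ) fun j => ?_).trans ?_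
    · exact mk_range_le.trans (mk_KK μ).le
    · rw [sum_const, Cardinal.lift_id, Cardinal.lift_id, mk_KK, mul_eq_self hμ]
  obtain ⟨d, hd, hd'⟩ := exists_gt_of_mk hreg.aleph0_le hcA (max e (code Y))
  obtain ⟨i, k, hik⟩ := (hN d c).2.2.2 Y hYgood ((le_max_right _ _).trans_lt hd') hG2
    (fun i k => (he _ (mem_iUnion.2 ⟨i, k, rfl⟩)).trans ((le_max_left _ _).trans_lt hd'))
  apply hXind _ hd _ (hG4 i k).2
  left
  exact ⟨((hN d c).1 _ hik).2, hik⟩

end Pool.Agent.Lib.MP_af714c_lc
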