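import Pool.Agent.Lib.MP_af714c_lc.Pos

/-!
# MP_af714c_lc: weakly compact cardinals have the filter extension property
-/

set_option autoImplicit false

namespace Pool.Agent.Lib.MP_af714c_lc

universe u v

open Cardinal Ordinal Set

theorem extProp_aleph0 : ExtProp (ℵ₀ : Cardinal.{u}) := by
  intro F hF _ X
  let U : Ultrafilter (KK (ℵ₀ : Cardinal.{u})) := Ultrafilter.of F
  refine ⟨U, Ultrafilter.of_le F, inferInstance, Filter.cardinalInterFilter_aleph0 _, fun i => ?_⟩
  exact (Ultrafilter.mem_or_compl_mem U (X i))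

/-- homogeneous sets -/
def Hom2 (κ : Cardinal.{u}) : Prop :=
  ∀ f : KK κ → KK κ → Bool, ∃ H : Set (KK κ), #H = κ ∧ ∃ c, ∀ x ∈ H, ∀ y ∈ H, x < y → f x y = c

theorem hom2_of_arrow {κ : Cardinal.{u}} (h : Arrow κ.ord κ.ord κ.ord) : Hom2 κ := by
  intro f
  rcases h f with ⟨H, hH, hH'⟩ | ⟨H, hH, hH'⟩
  · refine ⟨H, ?_, false, hH'⟩
    have := congrArg Ordinal.card hH
    rwa [card_type, card_ord] at this
  · refine ⟨H, ?_, true, hH'⟩
    have := congrArg Ordinal.card hH
    rwa [card_type, card_ord] at this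

theorem regular_of_hom2 {κ : Cardinal.{u}} (hκ : ℵ₀ ≤ κ) (h : Hom2 κ) : κ.IsRegular := by
  classical
  refine ⟨hκ, ?_⟩
  by_contra! hlt
  obtain ⟨g, ι, hg, h1, h2⟩ := exists_index κ
  obtain ⟨H, hH, c, hc⟩ := h (fun x y => decide (ι x = ι y))
  cases c with
  | true =>
    have hne : H.Nonempty := by
      rw [Set.nonempty_iff_ne_empty]
      rintro rfl
      rw [mk_eq_zero] at hH
      exact (aleph0_pos.trans_le hκ).ne hH
    obtain ⟨x, hx⟩ := hne
    have : #H < κ := by
      apply mk_lt_of_bdd hκ (x := g (ι x))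
      intro y hy
      have : ι x = ι y := by
        rcases lt_trichotomy x y with hxy | hxy | hxy
        · exact of_decide_eq_true (hc x hx y hy hxy)
        · rw [hxy]
        · exact (of_decide_eq_true (hc y hy x hx hxy)).symm
      rw [this]
      exact h1 y
    exact this.ne hH
  | false =>
    have : #H ≤ #(KK κ.ord.cof) := by
      refine mk_le_of_injective (f := fun x : H => ι x) ?_
      intro x y hxy
      by_contra hne
      rcases lt_or_gt_of_ne (fun h => hne (Subtype.ext h)) with hlt | hlt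
      · exact absurd hxy (of_decide_eq_false (hc x x.2 y y.2 hlt))
      · exact absurd hxy.symm (of_decide_eq_false (hc y y.2 x x.2 hlt))
    rw [hH, mk_KK] at this
    exact absurd this (not_le.2 hlt)

theorem evconst {κ : Cardinal.{u}} (hκ : κ.IsRegular) {L : Type u} [LinearOrder L]
    [WellFoundedLT L] (hL : ∀ l : L, #(Iio l) < κ) (s : KK κ → L → Bool) (H : Set (KK κ))
    (τ : L → KK κ) (c : Bool)
    (hmono : ∀ x ∈ H, ∀ y ∈ H, x < y → ∀ l, τ l < x → (∀ l' < l, s x l' = s y l') →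
      s x l ≠ s y l → s x l = c) :
    ∃ (b : L → Bool) (β : L → KK κ), ∀ l, ∀ x ∈ H, β l < x → s x l = b l := by
  have wf : WellFounded (fun i j : L => i < j) := wellFounded_lt
  have key : ∀ l, ∃ (b : Bool) (β : KK κ), ∀ x ∈ H, β < x → s x l = b := by
    intro l
    induction l using wf.induction with
    | h l ih =>
      choose b' β' hb' using fun l' : Iio l => ih l' l'.2
      obtain ⟨β1, hβ1⟩ := exists_bound_reg hκ (S := range β') (mk_range_le.trans_lt (hL l))
      set β0 := max β1 (τ l) with hβ0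
      have hagree : ∀ x ∈ H, ∀ y ∈ H, β0 < x → β0 < y → ∀ l' < l, s x l' = s y l' := by
        intro x hx y hy hβx hβy l' hl'
        have h1 : β' ⟨l', hl'⟩ < β0 := (hβ1 _ ⟨_, rfl⟩).trans_le (le_max_left _ _)
        rw [hb' ⟨l', hl'⟩ x hx (h1.trans hβx), hb' ⟨l', hl'⟩ y hy (h1.trans hβy)]
      by_cases hex : ∃ x ∈ H, β0 < x ∧ s x l ≠ c
      · obtain ⟨x, hx, hβx, hxc⟩ := hex
        refine ⟨s x l, x, fun y hy hxy => ?_⟩
        by_contra hne
        exact hxc (hmono x hx y hy hxy l ((le_max_right _ _).trans_lt hβx)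
          (hagree x hx y hy hβx (hβx.trans hxy)) (fun h => hne h.symm))
      · push Not at hex
        exact ⟨c, β0, hex⟩
  choose b β hb using key
  exact ⟨b, β, hb⟩

theorem strong_of_hom2 {κ : Cardinal.{u}} (hκ : κ.IsRegular) (h : Hom2 κ) (μ : Cardinal.{u})
    (hμ : μ < κ) : 2 ^ μ < κ := by
  classical
  by_contra! hle
  have h1 : #(KK κ) ≤ #(KK μ → Bool) := by
    rw [mk_KK, mk_arrow, mk_KK, mk_bool, Cardinal.lift_ofNat, Cardinal.lift_uzero]
    exact hle
  obtain ⟨⟨t, ht⟩⟩ := h1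
  obtain ⟨H, hH, c, hc⟩ := h (fun x y => decide (∃ l, (∀ l' < l, t x l' = t y l') ∧
    t x l = false ∧ t y l = true))
  have hL : ∀ l : KK μ, #(Iio l) < κ := fun l => (mk_Iio_lt l).trans hμ
  have : Nonempty (KK κ) := by
    rw [← mk_ne_zero_iff, mk_KK]; exact hκ.ne_zero
  obtain ⟨b, β, hb⟩ := evconst hκ hL t H (fun _ => Classical.arbitrary _) (!c) (by
    intro x hx y hy hxy l _ hag hne
    have hcxy := hc x hx y hy hxy
    cases c with
    | true =>
      obtain ⟨l0, h0, h0', h0''⟩ := of_decide_eq_true hcxy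
      rcases lt_trichotomy l l0 with hl | hl | hl
      · exact absurd (h0 l hl) hne
      · rw [hl]; exact h0'
      · exact absurd (hag l0 hl) (by rw [h0', h0'']; decide)
    | false =>
      have := of_decide_eq_false hcxy
      by_contra hne'
      apply this
      have e1 : t x l = false := by simpa using hne'
      have e2 : t y l = true := by
        rw [e1] at hne
        simpa using hne.symm
      exact ⟨l, hag, e1, e2⟩)
  obtain ⟨x0, hx0⟩ := exists_bound_reg hκ (S := range β)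
    (mk_range_le.trans_lt (by rw [mk_KK]; exact hμ))
  obtain ⟨x, hx, hxx⟩ := exists_gt_of_mk hκ.aleph0_le hH x0
  obtain ⟨y, hy, hyy⟩ := exists_gt_of_mk hκ.aleph0_le hH x
  have : t x = t y := by
    funext l
    have hβl : β l < x0 := hx0 _ ⟨l, rfl⟩
    rw [hb l x hx (hβl.trans hxx), hb l y hy ((hβl.trans hxx).trans hyy)]
  exact hyy.ne (ht this)

theorem extProp_of_hom2 {κ : Cardinal.{u}} (hκ0 : ℵ₀ ≤ κ) (h : Hom2 κ) : ExtProp κ := by
  classical
  have hκ := regular_of_hom2 hκ0 h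
  have hstrong := strong_of_hom2 hκ h
  have hnomax := noMax hκ0
  intro F hF hFc X
  -- positive nodes at every level
  have hpos : ∀ ξ : KK κ, ∃ t : KK κ → Bool, ∃ᶠ x in F, ∀ i < ξ, (x ∈ X i ↔ t i = true) := by
    intro ξ
    by_contra hcon
    have hcard : #(Iio ξ → Bool) < κ := by
      rw [mk_arrow, mk_bool, Cardinal.lift_ofNat, Cardinal.lift_uzero]
      exact hstrong _ (mk_Iio_lt ξ)
    have h1 : ∀ t : Iio ξ → Bool, ∀ᶠ x in F, ¬ ∀ i : Iio ξ, (x ∈ X i ↔ t i = true) := by
      intro t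
      have := not_exists.1 hcon (fun i => if hi : i < ξ then t ⟨i, hi⟩ else false)
      rw [Filter.not_frequently] at this
      refine this.mono fun x hx hx' => hx fun i hi => ?_
      simp only [hi, dif_pos]
      exact hx' ⟨i, hi⟩
    have h2 := (Filter.eventually_cardinal_forall hcard).2 h1
    obtain ⟨x, hx⟩ := h2.exists
    exact hx (fun i => decide (x ∈ X i)) (fun i => by simp)
  choose s hs using hpos
  obtain ⟨H, hH, c, hc⟩ := h (fun x y => decide (∃ l < x, (∀ l' < l, s x l' = s y l') ∧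
    s x l = false ∧ s y l = true))
  obtain ⟨b, β, hb⟩ := evconst hκ (fun l => mk_Iio_lt l) s H (fun l => l) (!c) (by
    intro x hx y hy hxy l hlx hag hne
    have hcxy := hc x hx y hy hxy
    cases c with
    | true =>
      obtain ⟨l0, -, h0, h0', h0''⟩ := of_decide_eq_true hcxy
      rcases lt_trichotomy l l0 with hl | hl | hl
      · exact absurd (h0 l hl) hne
      · rw [hl]; exact h0'
      · exact absurd (hag l0 hl) (by rw [h0', h0'']; decide)
    | false =>
      have := of_decide_eq_false hcxy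
      by_contra hne'
      apply this
      have e1 : s x l = false := by simpa using hne'
      have e2 : s y l = true := by
        rw [e1] at hne
        simpa using hne.symm
      exact ⟨l, hlx, hag, e1, e2⟩)
  let Z : KK κ → Set (KK κ) := fun ξ => {x | ∀ i < ξ, (x ∈ X i ↔ b i = true)}
  have hZanti : ∀ ξ ξ', ξ ≤ ξ' → Z ξ' ⊆ Z ξ := fun ξ ξ' hle x hx i hi => hx i (hi.trans_le hle)
  have hZpos : ∀ ξ, ∃ᶠ x in F, x ∈ Z ξ := by
    intro ξ
    obtain ⟨x0, hx0⟩ := exists_bound_reg hκ (S := β '' Iio ξ)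
      (mk_image_le.trans_lt (mk_Iio_lt ξ))
    obtain ⟨y, hy, hy'⟩ := exists_gt_of_mk hκ0 hH (max x0 ξ)
    refine (hs y).mono fun x hx i hi => ?_
    have h1 : s y i = b i :=
      hb i y hy ((hx0 _ (mem_image_of_mem _ hi)).trans ((le_max_left _ _).trans_lt hy'))
    rw [← h1]
    exact hx i (hi.trans ((le_max_right _ _).trans_lt hy'))
  have hne : Nonempty (KK κ) := by
    rw [← mk_ne_zero_iff, mk_KK]; exact hκ.ne_zero
  let F' : Filter (KK κ) :=
    { sets := {U | ∃ ξ, ∀ᶠ x in F, x ∈ Z ξ → x ∈ U}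
      univ_sets := ⟨Classical.arbitrary _, by simp⟩
      sets_of_superset := by
        rintro U V ⟨ξ, hξ⟩ hUV
        exact ⟨ξ, hξ.mono fun x hx hxZ => hUV (hx hxZ)⟩
      inter_sets := by
        rintro U V ⟨ξ, hξ⟩ ⟨ξ', hξ'⟩
        refine ⟨max ξ ξ', (hξ.and hξ').mono fun x hx hxZ => ?_⟩
        exact ⟨hx.1 (hZanti _ _ (le_max_left _ _) hxZ), hx.2 (hZanti _ _ (le_max_right _ _) hxZ)⟩ }
  have hF'mem : ∀ U, U ∈ F' ↔ ∃ ξ, ∀ᶠ x in F, x ∈ Z ξ → x ∈ U := fun U => Iff.rfl
  refine ⟨F', ?_, ?_, ?_, ?_⟩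
  · intro U hU
    rw [hF'mem]
    refine ⟨Classical.arbitrary _, ?_⟩
    filter_upwards [hU] with x hx _ using hx
  · rw [Filter.neBot_iff]
    intro hbot
    have : (∅ : Set (KK κ)) ∈ F' := by rw [hbot]; exact Filter.mem_bot
    rw [hF'mem] at this
    obtain ⟨ξ, hξ⟩ := this
    exact hZpos ξ (hξ.mono fun x hx hxZ => hx hxZ)
  · refine ⟨fun S hS hS' => ?_⟩
    choose ξ hξ using fun U : S => (hF'mem U).1 (hS' U U.2)
    obtain ⟨x0, hx0⟩ := exists_bound_reg hκ (S := range ξ) (mk_range_le.trans_lt hS)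
    rw [hF'mem]
    refine ⟨x0, ?_⟩
    have := (Filter.eventually_cardinal_forall hS).2 hξ
    refine this.mono fun x hx hxZ U hU => ?_
    exact hx ⟨U, hU⟩ (hZanti _ _ (hx0 _ ⟨⟨U, hU⟩, rfl⟩).le hxZ)
  · intro i
    obtain ⟨ξ, hξ⟩ := exists_gt i
    cases hbi : b i with
    | true =>
      left
      rw [hF'mem]
      exact ⟨ξ, Filter.Eventually.of_forall fun x hx => (hx i hξ).2 hbi⟩
    | false =>
      right
      rw [hF'mem]
      refine ⟨ξ, Filter.Eventually.of_forall fun x hx hxX => ?_⟩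
      have := (hx i hξ).1 hxX
      rw [hbi] at this
      exact absurd this (by decide)

end Pool.Agent.Lib.MP_af714c_lc
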