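import Pool.Agent.Lib.MP_af714c_lc.Suslin
import Pool.Agent.Lib.MP_af714c_lc.Succ
import Pool.Agent.Lib.MP_af714c_lc.WC
import Pool.Agent.Lib.MP_af714c_lc.Sing

/-!
# MP_af714c_lc: the main theorems
-/

set_option autoImplicit false

namespace Pool.Agent.Lib.MP_af714c_lc

universe u v

open Cardinal Ordinal Set

theorem pos_of_wc {κ : Cardinal.{u}} (h : κ = ℵ₀ ∨ WeaklyCompact κ) : Pos (KK κ) := by
  rcases h with rfl | ⟨h0, h1⟩
  · exact pos_of_ext isRegular_aleph0 extProp_aleph0
  · have h2 := hom2_of_arrow h1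
    exact pos_of_ext (regular_of_hom2 h0.le h2) (extProp_of_hom2 h0.le h2)

/-- regular case -/
theorem arrow_iff_pos_of_regular {c : Cardinal.{u}} (hc : c.IsRegular) :
    Arrow (c.ord * c.ord) (c.ord * c.ord) 3 ↔ Pos (KK c) := by
  constructor
  · intro h
    have := pos_of_arrow hc.aleph0_le h
    rwa [hc.cof_ord] at this
  · exact arrow_of_pos

theorem arrow_iff_pos_of_strongLimit {c : Cardinal.{u}} (hc : c.IsStrongLimit) :
    Arrow (c.ord * c.ord) (c.ord * c.ord) 3 ↔ Pos (KK c.ord.cof) := by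
  refine ⟨pos_of_arrow hc.aleph0_le, fun h => arrow_of_pos ?_⟩
  rcases (cof_ord_le c).eq_or_lt with h' | h'
  · rwa [h'] at h
  · exact pos_of_strongLimit hc h' h

/-- ZFC: for strong limit `λ` the relation for `λ` is equivalent to the relation for `cf λ` -/
theorem arrow_iff_cof {c : Cardinal.{u}} (hc : c.IsStrongLimit) :
    Arrow (c.ord * c.ord) (c.ord * c.ord) 3 ↔
      Arrow (c.ord.cof.ord * c.ord.cof.ord) (c.ord.cof.ord * c.ord.cof.ord) 3 := by
  rw [arrow_iff_pos_of_strongLimit hc, arrow_iff_pos_of_regular (isRegular_cof' hc.aleph0_le)]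

/-- ZFC: strong limit cardinals of countable or weakly compact cofinality -/
theorem arrow_of_strongLimit {c : Cardinal.{u}} (hc : c.IsStrongLimit)
    (h : c.ord.cof = ℵ₀ ∨ WeaklyCompact c.ord.cof) :
    Arrow (c.ord * c.ord) (c.ord * c.ord) 3 :=
  (arrow_iff_pos_of_strongLimit hc).2 (pos_of_wc h)

/-- ZFC: a Suslin tree on the cofinality refutes the relation -/
theorem not_arrow_of_suslin {c : Cardinal.{u}} (hc : ℵ₀ ≤ c) (h : HasSuslinTree c.ord.cof) :
    ¬ Arrow (c.ord * c.ord) (c.ord * c.ord) 3 :=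
  fun h' => not_pos_of_suslin (isRegular_cof' hc) h (pos_of_arrow hc h')

/-- ZFC: if `cf λ = μ⁺ = 2 ^ μ` then the relation fails -/
theorem not_arrow_of_succ {c μ : Cardinal.{u}} (hc : ℵ₀ ≤ c) (hμ : ℵ₀ ≤ μ)
    (h1 : c.ord.cof = Order.succ μ) (h2 : 2 ^ μ = Order.succ μ) :
    ¬ Arrow (c.ord * c.ord) (c.ord * c.ord) 3 :=
  fun h' => not_pos_succ hμ h1 (by rw [h1, h2]) (pos_of_arrow hc h')

/-- the classification under GCH -/
theorem classification (hGCH : GCH.{u}) (c : Cardinal.{u}) (hc : ℵ₀ ≤ c)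
    (h : c.ord.cof.IsInaccessible → WeaklyCompact c.ord.cof ∨ HasSuslinTree c.ord.cof) :
    Arrow (c.ord * c.ord) (c.ord * c.ord) 3 ↔ c.ord.cof = ℵ₀ ∨ WeaklyCompact c.ord.cof := by
  have hreg := isRegular_cof' hc
  constructor
  · intro harr
    rcases hreg.aleph0_le.eq_or_lt with h0 | h0
    · exact Or.inl h0.symm
    by_cases hin : c.ord.cof.IsInaccessible
    · rcases h hin with h1 | h1
      · exact Or.inr h1
      · exact absurd harr (not_arrow_of_suslin hc h1)
    · exfalso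
      have : ∃ x < c.ord.cof, c.ord.cof ≤ 2 ^ x := by
        by_contra! hcon
        exact hin ⟨h0, hreg.le_cof_ord, fun x hx => hcon x hx⟩
      obtain ⟨x, hx, hx'⟩ := this
      have hx0 : ℵ₀ ≤ x := by
        by_contra! hlt
        exact absurd (hx'.trans_lt (power_lt_aleph0 (natCast_lt_aleph0 (n := 2)) hlt))
          (not_lt.2 h0.le)
      rw [hGCH x hx0] at hx'
      exact not_arrow_of_succ hc hx0 (le_antisymm hx' (Order.succ_le_of_lt hx)) (hGCH x hx0) harr
  · intro hcof
    rcases isRegular_or_isSingular hc with hr | hs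
    · rw [arrow_iff_pos_of_regular hr]
      rw [hr.cof_ord] at hcof
      exact pos_of_wc hcof
    · refine arrow_of_strongLimit ⟨hs.pos.ne', fun x hx => ?_⟩ hcof
      rcases lt_or_ge x ℵ₀ with h0 | h0
      · exact (power_lt_aleph0 (natCast_lt_aleph0 (n := 2)) h0).trans_le hc
      · rw [hGCH x h0]
        exact hs.isSuccLimit.succ_lt hx

end Pool.Agent.Lib.MP_af714c_lc
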