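import Pool.Agent.Lib.MP_af714c_lc.Basic

/-!
# MP_af714c_lc: a Suslin tree gives a triangle-free graph without big independent sets
-/

set_option autoImplicit false

namespace Pool.Agent.Lib.MP_af714c_lc

universe u v

open Cardinal Ordinal Set

/-- a maximal antichain inside a given set -/
theorem exists_max_antichain {T : Type u} [PartialOrder T] (P : Set T) :
    ∃ A ⊆ P, IsAntichain (· ≤ ·) A ∧ ∀ t ∈ P, ∃ a ∈ A, a ≤ t ∨ t ≤ a := by
  obtain ⟨A, hA⟩ := zorn_subset {A : Set T | A ⊆ P ∧ IsAntichain (· ≤ ·) A} (by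
    intro c hc hchain
    refine ⟨⋃₀ c, ⟨sUnion_subset fun s hs => (hc hs).1, ?_⟩, fun s hs => subset_sUnion_of_mem hs⟩
    rintro x ⟨s, hs, hx⟩ y ⟨s', hs', hy⟩ hxy
    rcases hchain.total hs hs' with h | h
    · exact (hc hs').2 (h hx) hy hxy
    · exact (hc hs).2 hx (h hy) hxy)
  refine ⟨A, hA.prop.1, hA.prop.2, fun t ht => ?_⟩
  by_contra! hcon
  have hins : insert t A ∈ {A : Set T | A ⊆ P ∧ IsAntichain (· ≤ ·) A} := by
    refine ⟨insert_subset ht hA.prop.1, ?_⟩
    rw [isAntichain_insert]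
    exact ⟨hA.prop.2, fun b hb _ => ⟨(hcon b hb).2, (hcon b hb).1⟩⟩
  have := hA.le_of_ge hins (subset_insert t A)
  exact (hcon t (this (mem_insert t A))).1 le_rfl

/-- choosing distinct elements from large sets -/
theorem exists_inj_choice {κ : Cardinal.{u}} {I X : Type u} (hI : #I ≤ κ) (C : I → Set X)
    (hC : ∀ i, κ ≤ #(C i)) : ∃ G : I → X, Function.Injective G ∧ ∀ i, G i ∈ C i := by
  rw [← mk_KK κ] at hI
  obtain ⟨em⟩ := hI
  have wf : WellFounded (fun i j : I => em i < em j) := InvImage.wf em wellFounded_lt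
  have hne : ∀ (i : I) (f : ∀ j, em j < em i → X), ∃ x ∈ C i, ∀ j (h : em j < em i), x ≠ f j h := by
    intro i f
    by_contra! hcon
    have hsub : C i ⊆ range (fun j : {j // em j < em i} => f j.1 j.2) := by
      intro x hx
      obtain ⟨j, hj, hxj⟩ := hcon x hx
      exact ⟨⟨j, hj⟩, hxj.symm⟩
    have h1 : #(C i) ≤ #{j // em j < em i} := (mk_le_mk_of_subset hsub).trans mk_range_le
    have h2 : #{j // em j < em i} ≤ #(Iio (em i)) :=
      mk_le_of_injective (f := fun j => (⟨em j.1, j.2⟩ : Iio (em i))) (by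
        intro a b hab
        have := congrArg (fun x : Iio (em i) => (x : KK κ)) hab
        exact Subtype.ext (em.injective this))
    exact absurd ((hC i).trans (h1.trans h2)) (not_le.2 (mk_Iio_lt _))
  choose g hg hg' using hne
  let G : I → X := wf.fix g
  have hG : ∀ i, G i = g i (fun j _ => G j) := fun i => wf.fix_eq g i
  have hlt : ∀ i j, em j < em i → G i ≠ G j := by
    intro i j hij
    rw [hG i]
    exact hg' i _ j hij
  refine ⟨G, ?_, fun i => ?_⟩
  · intro i j hij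
    by_contra hne
    rcases lt_or_gt_of_ne (fun h => hne (em.injective h)) with h | h
    · exact hlt j i h hij.symm
    · exact hlt i j h hij
  · rw [hG i]
    exact hg i _

section tree

variable {T : Type u} [PartialOrder T]

/-- common predecessors -/
def cm (x y : T) : Set T := Iic x ∩ Iic y

theorem cm_comm (x y : T) : cm x y = cm y x := inter_comm _ _

variable (hch : ∀ t : T, ∀ x ≤ t, ∀ y ≤ t, x ≤ y ∨ y ≤ x)

include hch in
theorem cm_total (x y z : T) : cm x y ⊆ cm x z ∨ cm x z ⊆ cm x y := by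
  by_contra! hcon
  obtain ⟨h1, h2⟩ := hcon
  rw [not_subset] at h1 h2
  obtain ⟨p, ⟨hpx, hpy⟩, hp⟩ := h1
  obtain ⟨q, ⟨hqx, hqz⟩, hq⟩ := h2
  rcases hch x p hpx q hqx with h | h
  · exact hp ⟨hpx, le_trans h hqz⟩
  · exact hq ⟨hqx, le_trans h hpy⟩

include hch in
theorem cm_three (x y z : T) : cm x y = cm y z ∨ cm y z = cm x z ∨ cm x y = cm x z := by
  have key : ∀ x y z : T, cm x y ⊆ cm x z → cm x y = cm y z ∨ cm x y = cm x z := by
    intro x y z h
    have h1 : cm x y ⊆ cm y z := fun p hp => ⟨hp.2, (h hp).2⟩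
    rcases cm_total hch z x y with h2 | h2
    · right
      apply Subset.antisymm h
      intro p hp
      exact ⟨hp.1, (h2 ⟨hp.2, hp.1⟩).2⟩
    · left
      apply Subset.antisymm h1
      intro p hp
      exact ⟨(h2 ⟨hp.2, hp.1⟩).2, hp.1⟩
  rcases cm_total hch x y z with h | h
  · rcases key x y z h with h | h
    · exact Or.inl h
    · exact Or.inr (Or.inr h)
  · rcases key x z y h with h | h
    · exact Or.inr (Or.inl (by rw [cm_comm y z]; exact h.symm))
    · exact Or.inr (Or.inr h.symm)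

include hch in
theorem cm_eq_of_incomp {u v x y : T} (hux : u ≤ x) (hvy : v ≤ y) (h1 : ¬ u ≤ v) (h2 : ¬ v ≤ u) :
    cm x y = cm u v := by
  apply Subset.antisymm
  · rintro p ⟨hpx, hpy⟩
    constructor
    · rcases hch x p hpx u hux with h | h
      · exact h
      · exfalso
        rcases hch y u (le_trans h hpy) v hvy with h | h
        · exact h1 h
        · exact h2 h
    · rcases hch y p hpy v hvy with h | h
      · exact h
      · exfalso
        rcases hch x u hux v (le_trans h hpx) with h | h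
        · exact h1 h
        · exact h2 h
  · rintro p ⟨hpu, hpv⟩
    exact ⟨le_trans hpu hux, le_trans hpv hvy⟩

end tree

theorem not_pos_of_suslin {κ : Cardinal.{u}} (hκ : κ.IsRegular) (h : HasSuslinTree κ) :
    ¬ Pos (KK κ) := by
  obtain ⟨T, _, hT, htree, hchain, hanti⟩ := h
  have hch : ∀ t : T, ∀ x ≤ t, ∀ y ≤ t, x ≤ y ∨ y ≤ x := by
    intro t x hx y hy
    rcases hx.eq_or_lt with rfl | hx
    · exact Or.inr hy
    rcases hy.eq_or_lt with rfl | hy
    · exact Or.inl hx.le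
    exact (htree t).1.total hx hy
  have hIic : ∀ t : T, #(Iic t) < κ := by
    intro t
    apply hchain
    intro x hx y hy _
    exact hch t x hx y hy
  -- the good nodes
  set S : Set T := {t | κ ≤ #(Ici t)} with hS
  have hunion : ∀ (M : Set T) (f : T → Set T), #M < κ → (∀ m ∈ M, #(f m) < κ) →
      #(⋃ m ∈ M, f m) < κ := by
    intro M f hM hf
    exact (card_biUnion_lt_iff_forall_of_isRegular (t := fun m _ => f m) hκ hM).2 hf
  have hN : #(Sᶜ : Set T) < κ := by
    obtain ⟨M, hMN, hMa, hMmax⟩ := exists_max_antichain (Sᶜ : Set T)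
    have hsub : (Sᶜ : Set T) ⊆ ⋃ m ∈ M, (Ici m ∪ Iic m) := by
      intro t ht
      obtain ⟨m, hm, hm'⟩ := hMmax t ht
      rw [mem_iUnion₂]
      exact ⟨m, hm, hm'.imp id id⟩
    refine (mk_le_mk_of_subset hsub).trans_lt (hunion M _ (hanti M hMa) fun m hm => ?_)
    have : ¬ κ ≤ #(Ici m) := hMN hm
    exact (mk_union_le _ _).trans_lt (add_lt_of_lt hκ.aleph0_le (not_le.1 this) (hIic m))
  have hbig : ∀ A : Set T, κ ≤ #A → κ ≤ #(A ∩ S : Set T) := by
    intro A hA
    by_contra! hlt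
    have hsub : A ⊆ (A ∩ S) ∪ Sᶜ := by
      intro x hx
      by_cases hxS : x ∈ S
      · exact Or.inl ⟨hx, hxS⟩
      · exact Or.inr hxS
    have := (mk_le_mk_of_subset hsub).trans (mk_union_le _ _)
    exact absurd (hA.trans this) (not_le.2 (add_lt_of_lt hκ.aleph0_le hlt hN))
  have hSκ : #S = κ := by
    apply le_antisymm ((mk_set_le S).trans hT.le)
    have := hbig univ (by rw [mk_univ, hT])
    rwa [univ_inter] at this
  -- density lemma
  have hdense : ∀ B : Set T, B ⊆ S → κ ≤ #B →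
      ∃ t ∈ S, ∀ t' ∈ S, t ≤ t' → ∃ b ∈ B, t' ≤ b := by
    intro B hBS hB
    by_contra! hcon
    set D : Set T := {t | t ∈ S ∧ ∀ b ∈ B, ¬ t ≤ b} with hD
    obtain ⟨M, hMD, hMa, hMmax⟩ := exists_max_antichain D
    have hsub : B ⊆ ⋃ m ∈ M, Iic m := by
      intro b hb
      obtain ⟨d, hd, hbd, hdB⟩ := hcon b (hBS hb)
      obtain ⟨m, hm, hmd⟩ := hMmax d ⟨hd, hdB⟩
      rw [mem_iUnion₂]
      refine ⟨m, hm, ?_⟩
      rcases hmd with h | h
      · rcases hch d m h b hbd with h' | h'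
        · exact absurd h' ((hMD hm).2 b hb)
        · exact h'
      · exact le_trans hbd h
    exact absurd hB (not_le.2 ((mk_le_mk_of_subset hsub).trans_lt
      (hunion M _ (hanti M hMa) fun m _ => hIic m)))
  -- many meets
  let CC : T → Set (Set T) := fun t =>
    {C | ∃ u v, u ∈ S ∧ v ∈ S ∧ t ≤ u ∧ t ≤ v ∧ ¬ u ≤ v ∧ ¬ v ≤ u ∧ C = cm u v}
  have hCC : ∀ t ∈ S, κ ≤ #(CC t) := by
    intro t ht
    by_contra! hlt
    have hsub : Ici t ∩ S ⊆ ⋃ C ∈ CC t, C := by
      rintro x ⟨hx, hxS⟩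
      have hnc : ¬ IsChain (· ≤ ·) (Ici x ∩ S) := by
        intro hc
        exact absurd (hbig (Ici x) hxS) (not_le.2 (hchain _ hc))
      obtain ⟨p, hp, q, hq, hpq1, hpq2⟩ : ∃ p ∈ Ici x ∩ S, ∃ q ∈ Ici x ∩ S, ¬ p ≤ q ∧ ¬ q ≤ p := by
        by_contra! hcon
        apply hnc
        intro p hp q hq _
        by_cases hpq : p ≤ q
        · exact Or.inl hpq
        · exact Or.inr (hcon p hp q hq hpq)
      rw [mem_iUnion₂]
      exact ⟨cm p q, ⟨p, q, hp.2, hq.2, le_trans hx hp.1, le_trans hx hq.1, hpq1, hpq2, rfl⟩,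
        hp.1, hq.1⟩
    have h1 : #(⋃ C ∈ CC t, C : Set T) < κ := by
      refine (card_biUnion_lt_iff_forall_of_isRegular (t := fun C _ => C) hκ hlt).2 ?_
      rintro C ⟨p, q, _, _, _, _, _, _, rfl⟩
      exact (mk_le_mk_of_subset inter_subset_left).trans_lt (hIic p)
    exact absurd (hbig (Ici t) ht) (not_le.2 ((mk_le_mk_of_subset hsub).trans_lt h1))
  -- the choice of distinct meets
  have hcardI : #(S × KK κ × KK κ) ≤ κ := by
    simp only [mk_prod, Cardinal.lift_id, mk_KK, hSκ, mul_eq_self hκ.aleph0_le, le_refl]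
  obtain ⟨G, hGinj, hG⟩ := exists_inj_choice (κ := κ) hcardI (fun i => CC i.1) (fun i => hCC _ i.1.2)
  obtain ⟨s⟩ : Nonempty (KK κ ≃ S) := by
    rw [← Cardinal.eq, mk_KK, hSκ]
  let r : KK κ × KK κ → KK κ × KK κ → Prop := fun x y =>
    x.1 ≠ y.1 ∧ ∃ t : S, G (t, x.1, y.1) = cm (s x.2 : T) (s y.2) ∨
      G (t, y.1, x.1) = cm (s x.2 : T) (s y.2)
  have hrT : TriFree r := by
    constructor
    · rintro x y ⟨hne, t, h⟩
      refine ⟨hne.symm, t, ?_⟩
      rw [cm_comm]
      exact h.symm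
    · rintro x y z ⟨h1, t1, h1'⟩ ⟨h2, t2, h2'⟩ ⟨h3, t3, h3'⟩
      rcases cm_three hch (s x.2 : T) (s y.2) (s z.2) with h | h | h
      · rw [h] at h1'
        rcases h1' with h1' | h1' <;> rcases h2' with h2' | h2' <;>
          · have := hGinj (h1'.trans h2'.symm)
            simp only [Prod.mk.injEq] at this
            grind
      · rw [h] at h2'
        rcases h3' with h1' | h1' <;> rcases h2' with h2' | h2' <;>
          · have := hGinj (h1'.trans h2'.symm)
            simp only [Prod.mk.injEq] at this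
            grind
      · rw [h] at h1'
        rcases h1' with h1' | h1' <;> rcases h3' with h2' | h2' <;>
          · have := hGinj (h1'.trans h2'.symm)
            simp only [Prod.mk.injEq] at this
            grind
  intro hpos
  obtain ⟨Y, hYind, hYbig⟩ := hpos r hrT
  unfold Big at hYbig
  rw [mk_KK] at hYbig
  set A : Set (KK κ) := {i | #{j | (i, j) ∈ Y} = κ} with hA
  have hBa : ∀ a : A, ∃ t ∈ S, ∀ t' ∈ S, t ≤ t' → ∃ b, ((a : KK κ), b) ∈ Y ∧ t' ≤ (s b : T) := by
    intro a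
    obtain ⟨t, ht, ht'⟩ := hdense ((fun b => (s b : T)) '' {j | ((a : KK κ), j) ∈ Y}) (by
      rintro _ ⟨b, _, rfl⟩
      exact (s b).2) (by
      rw [mk_image_eq (fun b b' hbb => s.injective (Subtype.ext hbb))]
      exact (a.2 : _ = κ).ge)
    refine ⟨t, ht, fun t' ht1 htt' => ?_⟩
    obtain ⟨_, ⟨b, hb, rfl⟩, hb'⟩ := ht' t' ht1 htt'
    exact ⟨b, hb, hb'⟩
  choose t htS ht using hBa
  obtain ⟨a, c, hac, htac⟩ : ∃ a c : A, a ≠ c ∧ t a ≤ t c := by
    by_contra! hcon
    have hinj : Function.Injective t := by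
      intro a c hac
      by_contra hne
      exact hcon a c hne hac.le
    have hanti' : IsAntichain (· ≤ ·) (range t) := by
      rintro _ ⟨a, rfl⟩ _ ⟨c, rfl⟩ hne
      exact hcon a c (fun h => hne (by rw [h]))
    have := hanti _ hanti'
    rw [mk_range_eq t hinj, hYbig] at this
    exact lt_irrefl _ this
  obtain ⟨p, q, hpS, hqS, hp, hq, hpq, hqp, hGe⟩ := hG (⟨t c, htS c⟩, (a : KK κ), (c : KK κ))
  obtain ⟨b, hb, hpb⟩ := ht a p hpS (le_trans htac hp)
  obtain ⟨d, hd, hqd⟩ := ht c q hqS hq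
  apply hYind _ hb _ hd
  refine ⟨fun h => hac (Subtype.ext h), ⟨t c, htS c⟩, Or.inl ?_⟩
  rw [hGe]
  exact (cm_eq_of_incomp hch hpb hqd hpq hqp).symm

end Pool.Agent.Lib.MP_af714c_lc
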